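import Mathlib
set_option autoImplicit false

/-! Trace inequalities for positive semidefinite matrices. -/

namespace Pool.Agent.N248.RM

open Matrix Finset
open scoped ComplexOrder

variable {ι : Type*} [Fintype ι] [DecidableEq ι]

/-- diagonalisation of a positive semidefinite matrix -/
theorem diag (W : Matrix ι ι ℂ) (hW : W.PosSemidef) :
    ∃ (U : Matrix ι ι ℂ) (l : ι → ℝ), U * Uᴴ = 1 ∧ Uᴴ * U = 1 ∧ (∀ i, 0 ≤ l i) ∧
      ∀ q : ℕ, W ^ q = U * diagonal (fun i => ((l i ^ q : ℝ) : ℂ)) * Uᴴ := by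
  have hH := hW.isHermitian
  set U : Matrix ι ι ℂ := (hH.eigenvectorUnitary : Matrix ι ι ℂ) with hU
  have h1 : U * Uᴴ = 1 := by
    have := Unitary.coe_mul_star_self hH.eigenvectorUnitary
    simpa [star_eq_conjTranspose] using this
  have h2 : Uᴴ * U = 1 := by
    have := Unitary.coe_star_mul_self hH.eigenvectorUnitary
    simpa [star_eq_conjTranspose] using this
  have h3 : W = U * diagonal (fun i => ((hH.eigenvalues i : ℝ) : ℂ)) * Uᴴ := by
    have := hH.spectral_theorem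
    rw [Unitary.conjStarAlgAut_apply] at this
    exact this
  obtain ⟨l, hl⟩ : ∃ l : ι → ℝ, l = hH.eigenvalues := ⟨_, rfl⟩
  rw [← hl] at h3
  refine ⟨U, l, h1, h2, by rw [hl]; exact hW.eigenvalues_nonneg, ?_⟩
  intro q
  induction q with
  | zero =>
    simp only [pow_zero, Complex.ofReal_one]
    rw [show (diagonal fun _ : ι => (1 : ℂ)) = 1 from diagonal_one, mul_one, h1]
  | succ q ih =>
    rw [pow_succ, ih]
    nth_rewrite 1 [h3]
    calc U * diagonal (fun i => ((l i ^ q : ℝ) : ℂ)) * Uᴴ *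
          (U * diagonal (fun i => ((l i : ℝ) : ℂ)) * Uᴴ)
        = U * diagonal (fun i => ((l i ^ q : ℝ) : ℂ)) * (Uᴴ * U) *
          diagonal (fun i => ((l i : ℝ) : ℂ)) * Uᴴ := by
          simp only [Matrix.mul_assoc]
      _ = _ := by
        rw [h2, Matrix.mul_one, Matrix.mul_assoc U, diagonal_mul_diagonal]
        congr 3
        ext i
        rw [pow_succ]
        push_cast
        rfl

/-- the trace of a product with two diagonal matrices -/
theorem tr_diag (A : Matrix ι ι ℂ) (a b : ι → ℝ) :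
    (trace (A * diagonal (fun i => (a i : ℂ)) * Aᴴ * diagonal (fun i => (b i : ℂ)))).re =
      ∑ j, ∑ i, a i * b j * ‖A j i‖ ^ 2 := by
  have h : trace (A * diagonal (fun i => (a i : ℂ)) * Aᴴ * diagonal (fun i => (b i : ℂ))) =
      ((∑ j, ∑ i, a i * b j * ‖A j i‖ ^ 2 : ℝ) : ℂ) := by
    unfold trace
    push_cast
    refine Finset.sum_congr rfl fun j _ => ?_
    rw [diag_apply, mul_diagonal, Matrix.mul_apply, Finset.sum_mul]
    refine Finset.sum_congr rfl fun i _ => ?_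
    rw [mul_diagonal, conjTranspose_apply]
    have : A j i * star (A j i) = ((‖A j i‖ ^ 2 : ℝ) : ℂ) := by
      rw [Complex.star_def, Complex.mul_conj, Complex.normSq_eq_norm_sq]
    calc A j i * (a i : ℂ) * star (A j i) * (b j : ℂ) =
        (a i : ℂ) * (b j : ℂ) * (A j i * star (A j i)) := by ring
      _ = _ := by rw [this]; push_cast; ring
  rw [h, Complex.ofReal_re]

/-- the traces in a common form -/
theorem tr_form (M W Y : Matrix ι ι ℂ) (hM : M.IsHermitian) (hW : W.PosSemidef)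
    (hY : Y.PosSemidef) : ∃ (A : Matrix ι ι ℂ) (l m : ι → ℝ), (∀ i, 0 ≤ l i) ∧ (∀ i, 0 ≤ m i) ∧
      ∀ q r : ℕ, (trace (M * W ^ q * M * Y ^ r)).re =
        ∑ j, ∑ i, l i ^ q * m j ^ r * ‖A j i‖ ^ 2 := by
  obtain ⟨U, l, hU1, hU2, hl, hU⟩ := diag W hW
  obtain ⟨V, m, hV1, hV2, hm, hV⟩ := diag Y hY
  refine ⟨Vᴴ * M * U, l, m, hl, hm, ?_⟩
  intro q r
  rw [← tr_diag]
  congr 1
  rw [hU, hV, conjTranspose_mul, conjTranspose_mul, conjTranspose_conjTranspose, hM.eq]
  calc trace (M * (U * diagonal (fun i => ((l i ^ q : ℝ) : ℂ)) * Uᴴ) * M *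
        (V * diagonal (fun i => ((m i ^ r : ℝ) : ℂ)) * Vᴴ))
      = trace ((M * U * diagonal (fun i => ((l i ^ q : ℝ) : ℂ)) * Uᴴ * M *
        V * diagonal (fun i => ((m i ^ r : ℝ) : ℂ))) * Vᴴ) := by
        simp only [Matrix.mul_assoc]
    _ = trace (Vᴴ * (M * U * diagonal (fun i => ((l i ^ q : ℝ) : ℂ)) * Uᴴ * M *
        V * diagonal (fun i => ((m i ^ r : ℝ) : ℂ)))) := trace_mul_comm _ _
    _ = _ := by simp only [Matrix.mul_assoc]

theorem pow_sum (a b : ℝ) (ha : 0 ≤ a) (hb : 0 ≤ b) (m : ℕ) :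
    ∑ q ∈ range (m + 1), a ^ q * b ^ (m - q) ≤ ((m : ℝ) + 1) / 2 * (a ^ m + b ^ m) := by
  have h1 : ∑ q ∈ range (m + 1), a ^ q * b ^ (m - q) =
      ∑ q ∈ range (m + 1), a ^ (m - q) * b ^ q := by
    rw [← Finset.sum_range_reflect]
    refine Finset.sum_congr rfl fun q hq => ?_
    rw [Finset.mem_range] at hq
    have e1 : m + 1 - 1 - q = m - q := by omega
    have e2 : m - (m - q) = q := by omega
    rw [e1, e2]
  have h2 : ∀ q ∈ range (m + 1), a ^ q * b ^ (m - q) + a ^ (m - q) * b ^ q ≤ a ^ m + b ^ m := by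
    intro q hq
    rw [Finset.mem_range] at hq
    have e1 : a ^ m = a ^ q * a ^ (m - q) := by rw [← pow_add]; congr 1; omega
    have e2 : b ^ m = b ^ q * b ^ (m - q) := by rw [← pow_add]; congr 1; omega
    rw [e1, e2]
    have h3 : 0 ≤ (a ^ q - b ^ q) * (a ^ (m - q) - b ^ (m - q)) := by
      rcases le_total a b with h | h
      · exact mul_nonneg_of_nonpos_of_nonpos
          (sub_nonpos.2 (pow_le_pow_left₀ ha h _)) (sub_nonpos.2 (pow_le_pow_left₀ ha h _))
      · exact mul_nonneg (sub_nonneg.2 (pow_le_pow_left₀ hb h _))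
          (sub_nonneg.2 (pow_le_pow_left₀ hb h _))
    nlinarith
  have h4 := Finset.sum_le_sum h2
  rw [Finset.sum_add_distrib, ← h1, Finset.sum_const, Finset.card_range, nsmul_eq_mul] at h4
  push_cast at h4
  linarith

/-- the sum of the mixed traces -/
theorem mixed (M W Y : Matrix ι ι ℂ) (hM : M.IsHermitian) (hW : W.PosSemidef)
    (hY : Y.PosSemidef) (m : ℕ) :
    ∑ q ∈ range (m + 1), (trace (M * W ^ q * M * Y ^ (m - q))).re ≤
      ((m : ℝ) + 1) / 2 * ((trace (M * M * W ^ m)).re + (trace (M * M * Y ^ m)).re) := by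
  obtain ⟨A, l, μ, hl, hμ, hf⟩ := tr_form M W Y hM hW hY
  have e1 : (trace (M * M * W ^ m)).re = ∑ j, ∑ i, l i ^ m * ‖A j i‖ ^ 2 := by
    have := hf m 0
    rw [pow_zero, Matrix.mul_one] at this
    rw [show trace (M * M * W ^ m) = trace (M * W ^ m * M) by
      rw [Matrix.mul_assoc, trace_mul_comm], this]
    simp
  have e2 : (trace (M * M * Y ^ m)).re = ∑ j, ∑ i, μ j ^ m * ‖A j i‖ ^ 2 := by
    have := hf 0 m
    rw [pow_zero, Matrix.mul_one] at this
    rw [this]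
    simp
  simp_rw [hf]
  rw [e1, e2, Finset.sum_comm]
  calc ∑ j, ∑ q ∈ range (m + 1), ∑ i, l i ^ q * μ j ^ (m - q) * ‖A j i‖ ^ 2
      = ∑ j, ∑ i, (∑ q ∈ range (m + 1), l i ^ q * μ j ^ (m - q)) * ‖A j i‖ ^ 2 := by
        refine Finset.sum_congr rfl fun j _ => ?_
        rw [Finset.sum_comm]
        refine Finset.sum_congr rfl fun i _ => ?_
        rw [Finset.sum_mul]
    _ ≤ ∑ j, ∑ i, (((m : ℝ) + 1) / 2 * (l i ^ m + μ j ^ m)) * ‖A j i‖ ^ 2 := by
        refine Finset.sum_le_sum fun j _ => Finset.sum_le_sum fun i _ => ?_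
        exact mul_le_mul_of_nonneg_right (pow_sum _ _ (hl i) (hμ j) m) (by positivity)
    _ = _ := by
        rw [← Finset.sum_add_distrib, Finset.mul_sum]
        refine Finset.sum_congr rfl fun j _ => ?_
        rw [← Finset.sum_add_distrib, Finset.mul_sum]
        refine Finset.sum_congr rfl fun i _ => ?_
        ring

theorem mixed_nonneg (M W Y : Matrix ι ι ℂ) (hM : M.IsHermitian) (hW : W.PosSemidef)
    (hY : Y.PosSemidef) (q r : ℕ) : 0 ≤ (trace (M * W ^ q * M * Y ^ r)).re := by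
  obtain ⟨A, l, μ, hl, hμ, hf⟩ := tr_form M W Y hM hW hY
  rw [hf]
  refine Finset.sum_nonneg fun j _ => Finset.sum_nonneg fun i _ => ?_
  have := hl i
  have := hμ j
  positivity

/-- telescoping -/
theorem tele (W Y : Matrix ι ι ℂ) (m : ℕ) :
    W ^ (m + 1) - Y ^ (m + 1) = ∑ q ∈ range (m + 1), W ^ q * (W - Y) * Y ^ (m - q) := by
  induction m with
  | zero => simp
  | succ m ih =>
    rw [Finset.sum_range_succ']
    have h1 : W ^ (m + 1 + 1) - Y ^ (m + 1 + 1) =
        W * (W ^ (m + 1) - Y ^ (m + 1)) + (W - Y) * Y ^ (m + 1) := by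
      rw [pow_succ' W (m + 1), pow_succ' Y (m + 1), Matrix.mul_sub, Matrix.sub_mul]
      abel
    rw [h1, ih, Matrix.mul_sum]
    congr 1
    · refine Finset.sum_congr rfl fun q hq => ?_
      have e1 : m + 1 - (q + 1) = m - q := by omega
      rw [e1, pow_succ']
      simp only [Matrix.mul_assoc]
    · simp

/-- products of positive semidefinite matrices have nonnegative trace -/
theorem tr_nonneg (P Q : Matrix ι ι ℂ) (hP : P.PosSemidef) (hQ : Q.PosSemidef) :
    0 ≤ (trace (P * Q)).re := by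
  obtain ⟨U, l, hU1, hU2, hl, hU⟩ := diag P hP
  have h1 := hU 1
  rw [pow_one] at h1
  -- P = C C* with C = U diag(sqrt l)
  set C : Matrix ι ι ℂ := U * diagonal (fun i => ((Real.sqrt (l i) : ℝ) : ℂ)) with hC
  have h2 : P = C * Cᴴ := by
    rw [h1, hC, conjTranspose_mul, diagonal_conjTranspose]
    have : star (fun i => ((Real.sqrt (l i) : ℝ) : ℂ)) = fun i => ((Real.sqrt (l i) : ℝ) : ℂ) := by
      ext i
      simp
    have h5 : diagonal (fun i => ((l i ^ 1 : ℝ) : ℂ)) =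
        diagonal (fun i => ((Real.sqrt (l i) : ℝ) : ℂ)) *
          diagonal (fun i => ((Real.sqrt (l i) : ℝ) : ℂ)) := by
      rw [diagonal_mul_diagonal]
      congr 1
      ext i
      rw [pow_one, ← Complex.ofReal_mul, Real.mul_self_sqrt (hl i)]
    rw [this, h5]
    simp only [Matrix.mul_assoc]
  have h3 : trace (P * Q) = trace (Cᴴ * Q * C) := by
    rw [h2, Matrix.mul_assoc, trace_mul_comm]
  rw [h3]
  have h4 := (hQ.conjTranspose_mul_mul_same C).trace_nonneg
  exact (Complex.le_def.1 h4).1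

/-- `M² ≤ M` in the trace form -/
theorem tr_sq (M P : Matrix ι ι ℂ) (hM : M.PosSemidef) (hM1 : (1 - M).PosSemidef)
    (hP : P.PosSemidef) : (trace (M * M * P)).re ≤ (trace (M * P)).re := by
  have h1 : M - M * M = (1 - M) * M * (1 - M)ᴴ + M * (1 - M) * Mᴴ := by
    rw [hM1.isHermitian.eq, hM.isHermitian.eq]
    noncomm_ring
  have h2 : (M - M * M).PosSemidef := by
    rw [h1]
    exact (hM.mul_mul_conjTranspose_same (1 - M)).add (hM1.mul_mul_conjTranspose_same M)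
  have h3 := tr_nonneg _ _ h2 hP
  rw [Matrix.sub_mul, trace_sub, Complex.sub_re] at h3
  linarith

/-- the difference of the traces -/
theorem diff_eq (M Y : Matrix ι ι ℂ) (m : ℕ) :
    (trace (M * (M + Y) ^ (m + 1))).re - (trace (M * Y ^ (m + 1))).re =
      ∑ q ∈ range (m + 1), (trace (M * (M + Y) ^ q * M * Y ^ (m - q))).re := by
  rw [← Complex.sub_re, ← trace_sub, ← Matrix.mul_sub, tele, Matrix.mul_sum, trace_sum,
    Complex.re_sum]
  refine Finset.sum_congr rfl fun q _ => ?_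
  rw [add_sub_cancel_right]
  simp only [Matrix.mul_assoc]

/-- the one step inequality -/
theorem one_step (M Y : Matrix ι ι ℂ) (hM : M.PosSemidef) (hM1 : (1 - M).PosSemidef)
    (hY : Y.PosSemidef) (m : ℕ) :
    (trace (M * (M + Y) ^ (m + 1))).re ≤ (trace (M * Y ^ (m + 1))).re +
      ((m : ℝ) + 1) / 2 * ((trace (M * (M + Y) ^ m)).re + (trace (M * Y ^ m)).re) := by
  have h1 := diff_eq M Y m
  have h2 := mixed M (M + Y) Y hM.isHermitian (hM.add hY) hY m
  have h3 := tr_sq M ((M + Y) ^ m) hM hM1 ((hM.add hY).pow m)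
  have h4 := tr_sq M (Y ^ m) hM hM1 (hY.pow m)
  have h5 : (0 : ℝ) ≤ ((m : ℝ) + 1) / 2 := by positivity
  have h6 := mul_le_mul_of_nonneg_left (add_le_add h3 h4) h5
  linarith

/-- monotonicity -/
theorem mono_step (M Y : Matrix ι ι ℂ) (hM : M.PosSemidef) (hY : Y.PosSemidef) (m : ℕ) :
    (trace (M * Y ^ m)).re ≤ (trace (M * (M + Y) ^ m)).re := by
  rcases m with _ | m
  · simp
  · have h1 := diff_eq M Y m
    have h2 : 0 ≤ ∑ q ∈ range (m + 1), (trace (M * (M + Y) ^ q * M * Y ^ (m - q))).re :=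
      Finset.sum_nonneg fun q _ => mixed_nonneg M (M + Y) Y hM.isHermitian (hM.add hY) hY q (m - q)
    linarith

/-- `tr(B P) ≤ μ tr P` for `B ≤ μ` -/
theorem tr_mul_le (B P : Matrix ι ι ℂ) (μ : ℝ) (hB : ((μ : ℂ) • (1 : Matrix ι ι ℂ) - B).PosSemidef)
    (hP : P.PosSemidef) : (trace (B * P)).re ≤ μ * (trace P).re := by
  have h := tr_nonneg _ _ hB hP
  rw [Matrix.sub_mul, trace_sub, Complex.sub_re, Matrix.smul_mul, Matrix.one_mul, trace_smul,
    smul_eq_mul, Complex.re_ofReal_mul] at h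
  linarith

/-- the quadratic form is bounded by the trace of the power -/
theorem quad_le (T : Matrix ι ι ℂ) (hT : T.PosSemidef) (K : ℕ) (hK : K ≠ 0) (c : ι → ℂ)
    (hc : ∑ i, ‖c i‖ ^ 2 ≤ 1) : ((star c ⬝ᵥ (T *ᵥ c)).re) ^ K ≤ (trace (T ^ K)).re := by
  obtain ⟨U, l, hU1, hU2, hl, hU⟩ := diag T hT
  have h1 := hU 1
  rw [pow_one] at h1
  simp only [pow_one] at h1
  -- coordinates
  set w : ι → ℂ := Uᴴ *ᵥ c with hw
  have hq : (star c ⬝ᵥ (T *ᵥ c)).re = ∑ i, l i * ‖w i‖ ^ 2 := by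
    have e1 : star c ⬝ᵥ (T *ᵥ c) = star w ⬝ᵥ (diagonal (fun i => ((l i : ℝ) : ℂ)) *ᵥ w) := by
      rw [h1, hw, star_mulVec, conjTranspose_conjTranspose, ← dotProduct_mulVec, mulVec_mulVec,
        mulVec_mulVec]
    rw [e1]
    unfold dotProduct
    rw [Complex.re_sum]
    refine Finset.sum_congr rfl fun i _ => ?_
    rw [mulVec_diagonal, Pi.star_apply]
    have : star (w i) * ((l i : ℂ) * w i) = ((l i * ‖w i‖ ^ 2 : ℝ) : ℂ) := by
      have h3 : star (w i) * w i = ((‖w i‖ ^ 2 : ℝ) : ℂ) := by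
        rw [Complex.star_def, ← Complex.normSq_eq_conj_mul_self, Complex.normSq_eq_norm_sq]
      calc star (w i) * ((l i : ℂ) * w i) = (l i : ℂ) * (star (w i) * w i) := by ring
        _ = _ := by rw [h3]; push_cast; ring
    rw [this, Complex.ofReal_re]
  have hn : ∑ i, ‖w i‖ ^ 2 ≤ 1 := by
    have e2 : ∀ x : ι → ℂ, ((∑ i, ‖x i‖ ^ 2 : ℝ) : ℂ) = star x ⬝ᵥ x := by
      intro x
      unfold dotProduct
      push_cast
      refine Finset.sum_congr rfl fun i _ => ?_
      rw [Pi.star_apply, Complex.star_def, ← Complex.normSq_eq_conj_mul_self,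
        Complex.normSq_eq_norm_sq]
      push_cast
      rfl
    have e3 : ((∑ i, ‖w i‖ ^ 2 : ℝ) : ℂ) = ((∑ i, ‖c i‖ ^ 2 : ℝ) : ℂ) := by
      rw [e2, e2, hw, star_mulVec, conjTranspose_conjTranspose, ← dotProduct_mulVec,
        mulVec_mulVec, hU1, one_mulVec]
    have e4 : ∑ i, ‖w i‖ ^ 2 = ∑ i, ‖c i‖ ^ 2 := by exact_mod_cast e3
    rw [e4]
    exact hc
  have htr : (trace (T ^ K)).re = ∑ i, l i ^ K := by
    rw [hU K, trace_mul_comm, ← Matrix.mul_assoc, hU2, Matrix.one_mul, trace_diagonal,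
      Complex.re_sum]
    exact Finset.sum_congr rfl fun i _ => Complex.ofReal_re _
  rw [hq, htr]
  have hx0 : 0 ≤ ∑ i, l i * ‖w i‖ ^ 2 := Finset.sum_nonneg fun i _ => by
    have := hl i
    positivity
  rcases isEmpty_or_nonempty ι with he | he
  · simp [hK]
  · obtain ⟨i₀, _, hi₀⟩ := Finset.exists_max_image Finset.univ l Finset.univ_nonempty
    have h5 : ∑ i, l i * ‖w i‖ ^ 2 ≤ l i₀ := by
      calc ∑ i, l i * ‖w i‖ ^ 2 ≤ ∑ i, l i₀ * ‖w i‖ ^ 2 :=
            Finset.sum_le_sum fun i hi => mul_le_mul_of_nonneg_right (hi₀ i hi) (by positivity)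
        _ = l i₀ * ∑ i, ‖w i‖ ^ 2 := by rw [Finset.mul_sum]
        _ ≤ l i₀ * 1 := mul_le_mul_of_nonneg_left hn (hl i₀)
        _ = l i₀ := mul_one _
    calc (∑ i, l i * ‖w i‖ ^ 2) ^ K ≤ l i₀ ^ K := pow_le_pow_left₀ hx0 h5 K
      _ ≤ ∑ i, l i ^ K := Finset.single_le_sum (f := fun i => l i ^ K)
          (fun i _ => pow_nonneg (hl i) K) (Finset.mem_univ i₀)

end Pool.Agent.N248.RM
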