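import Mathlib
import Pool.Agent.N248.RM.A
set_option autoImplicit false

/-! Random selection: independent choice of the elements of a finite set, and the moment bound for
random sums of positive semidefinite matrices. -/

namespace Pool.Agent.N248.RM

open Matrix Finset
open scoped ComplexOrder

variable {α : Type*} [DecidableEq α]

/-- the probability of the subset `S` of `J` when the elements `j` are chosen independently with
probabilities `p j` -/
noncomputable def pr (J : Finset α) (p : α → ℝ) (S : Finset α) : ℝ :=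
  ∏ j ∈ J, if j ∈ S then p j else 1 - p j

/-- the expectation -/
noncomputable def ex (J : Finset α) (p : α → ℝ) (F : Finset α → ℝ) : ℝ :=
  ∑ S ∈ J.powerset, pr J p S * F S

theorem pr_nonneg (J : Finset α) (p : α → ℝ) (hp : ∀ j ∈ J, 0 ≤ p j ∧ p j ≤ 1) (S : Finset α) :
    0 ≤ pr J p S := by
  unfold pr
  refine Finset.prod_nonneg fun j hj => ?_
  split_ifs
  · exact (hp j hj).1
  · linarith [(hp j hj).2]

/-- conditioning on one element -/
theorem ex_insert (J : Finset α) (p : α → ℝ) (j : α) (hj : j ∉ J) (F : Finset α → ℝ) :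
    ex (insert j J) p F = ex J p fun S => p j * F (insert j S) + (1 - p j) * F S := by
  unfold ex
  rw [Finset.sum_powerset_insert hj, ← Finset.sum_add_distrib]
  refine Finset.sum_congr rfl fun S hS => ?_
  rw [Finset.mem_powerset] at hS
  have hjS : j ∉ S := fun h => hj (hS h)
  have e1 : pr (insert j J) p S = (1 - p j) * pr J p S := by
    unfold pr
    rw [Finset.prod_insert hj, if_neg hjS]
  have e2 : pr (insert j J) p (insert j S) = p j * pr J p S := by
    unfold pr
    rw [Finset.prod_insert hj, if_pos (Finset.mem_insert_self j S)]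
    congr 1
    refine Finset.prod_congr rfl fun i hi => ?_
    have hij : i ≠ j := fun h => hj (h ▸ hi)
    have : i ∈ insert j S ↔ i ∈ S := by simp [hij]
    simp only [this]
  rw [e1, e2]
  ring

theorem ex_mono (J : Finset α) (p : α → ℝ) (hp : ∀ j ∈ J, 0 ≤ p j ∧ p j ≤ 1)
    (F G : Finset α → ℝ) (h : ∀ S ⊆ J, F S ≤ G S) : ex J p F ≤ ex J p G := by
  unfold ex
  refine Finset.sum_le_sum fun S hS => ?_
  exact mul_le_mul_of_nonneg_left (h S (Finset.mem_powerset.1 hS)) (pr_nonneg J p hp S)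

theorem ex_congr (J : Finset α) (p : α → ℝ)
    (F G : Finset α → ℝ) (h : ∀ S ⊆ J, F S = G S) : ex J p F = ex J p G := by
  unfold ex
  exact Finset.sum_congr rfl fun S hS => by rw [h S (Finset.mem_powerset.1 hS)]

theorem ex_add (J : Finset α) (p : α → ℝ) (F G : Finset α → ℝ) :
    ex J p (fun S => F S + G S) = ex J p F + ex J p G := by
  unfold ex
  rw [← Finset.sum_add_distrib]
  exact Finset.sum_congr rfl fun S _ => by ring

theorem ex_mul (J : Finset α) (p : α → ℝ) (c : ℝ) (F : Finset α → ℝ) :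
    ex J p (fun S => c * F S) = c * ex J p F := by
  unfold ex
  rw [Finset.mul_sum]
  exact Finset.sum_congr rfl fun S _ => by ring

theorem ex_sum {β : Type*} (J : Finset α) (p : α → ℝ) (I : Finset β) (F : β → Finset α → ℝ) :
    ex J p (fun S => ∑ i ∈ I, F i S) = ∑ i ∈ I, ex J p (F i) := by
  unfold ex
  rw [Finset.sum_comm]
  exact Finset.sum_congr rfl fun S _ => by rw [Finset.mul_sum]

theorem ex_one (J : Finset α) (p : α → ℝ) : ex J p (fun _ => 1) = 1 := by
  induction J using Finset.induction_on with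
  | empty => simp [ex, pr]
  | insert j J hj ih =>
    rw [ex_insert J p j hj]
    have : (fun _ : Finset α => p j * 1 + (1 - p j) * 1) = fun _ => (1 : ℝ) := by
      ext; ring
    rw [this]
    exact ih

theorem ex_nonneg (J : Finset α) (p : α → ℝ) (hp : ∀ j ∈ J, 0 ≤ p j ∧ p j ≤ 1)
    (F : Finset α → ℝ) (h : ∀ S ⊆ J, 0 ≤ F S) : 0 ≤ ex J p F := by
  have := ex_mono J p hp (fun _ => 0) F h
  refine le_trans (le_of_eq ?_) this
  unfold ex
  simp

/-- the elements one at a time -/
theorem ex_mem (J : Finset α) (p : α → ℝ) (j : α) (hj : j ∈ J) (G : Finset α → ℝ) :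
    ex J p (fun S => if j ∈ S then G S else 0) =
      p j * ex (J.erase j) p fun S => G (insert j S) := by
  have h1 : J = insert j (J.erase j) := (Finset.insert_erase hj).symm
  conv_lhs => rw [h1]
  rw [ex_insert _ p j (Finset.notMem_erase j J), ← ex_mul]
  refine ex_congr _ _ _ _ fun S hS => ?_
  have hjS : j ∉ S := fun h => Finset.notMem_erase j J (hS h)
  rw [if_pos (Finset.mem_insert_self j S), if_neg hjS]
  ring

theorem ex_erase (J : Finset α) (p : α → ℝ) (j : α) (hj : j ∈ J) (F : Finset α → ℝ) :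
    ex J p F = ex (J.erase j) p fun S => p j * F (insert j S) + (1 - p j) * F S := by
  have h1 : J = insert j (J.erase j) := (Finset.insert_erase hj).symm
  conv_lhs => rw [h1]
  rw [ex_insert _ p j (Finset.notMem_erase j J)]

variable {ι : Type*} [Fintype ι] [DecidableEq ι]

/-- the random sum -/
noncomputable def Ts (M : α → Matrix ι ι ℂ) (S : Finset α) : Matrix ι ι ℂ := ∑ j ∈ S, M j

theorem Ts_psd (M : α → Matrix ι ι ℂ) (J : Finset α) (hM : ∀ j ∈ J, (M j).PosSemidef)
    (S : Finset α) (hS : S ⊆ J) : (Ts M S).PosSemidef :=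
  posSemidef_sum S fun j hj => hM j (hS hj)

/-- the moments -/
noncomputable def mo (J : Finset α) (p : α → ℝ) (M : α → Matrix ι ι ℂ) (k : ℕ) : ℝ :=
  ex J p fun S => (trace (Ts M S ^ k)).re

theorem mo_succ (J : Finset α) (p : α → ℝ) (M : α → Matrix ι ι ℂ) (k : ℕ) :
    mo J p M (k + 1) = ∑ j ∈ J, p j * ex (J.erase j) p fun S =>
      (trace (M j * (M j + Ts M S) ^ k)).re := by
  unfold mo
  have h1 : ∀ S ⊆ J, (trace (Ts M S ^ (k + 1))).re =
      ∑ j ∈ J, if j ∈ S then (trace (M j * Ts M S ^ k)).re else 0 := by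
    intro S hS
    rw [pow_succ']
    nth_rewrite 1 [Ts]
    rw [Finset.sum_mul, trace_sum, Complex.re_sum, ← Finset.sum_filter]
    congr 1
    ext j
    simp only [Finset.mem_filter]
    exact ⟨fun h => ⟨hS h, h⟩, fun h => h.2⟩
  rw [ex_congr J p _ _ h1, ex_sum]
  refine Finset.sum_congr rfl fun j hj => ?_
  rw [ex_mem J p j hj]
  congr 1
  refine ex_congr _ _ _ _ fun S hS => ?_
  have hjS : j ∉ S := fun h => Finset.notMem_erase j J (hS h)
  have : Ts M (insert j S) = M j + Ts M S := by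
    unfold Ts
    rw [Finset.sum_insert hjS]
  rw [this]

/-- the sum with one element removed, from above -/
theorem mo_up (J : Finset α) (p : α → ℝ) (hp : ∀ j ∈ J, 0 ≤ p j ∧ p j ≤ 1)
    (M : α → Matrix ι ι ℂ) (hM : ∀ j ∈ J, (M j).PosSemidef) (μ : ℝ)
    (hμ : ((μ : ℂ) • (1 : Matrix ι ι ℂ) - ∑ j ∈ J, (p j : ℂ) • M j).PosSemidef) (k : ℕ) :
    ∑ j ∈ J, p j * ex (J.erase j) p (fun S => (trace (M j * Ts M S ^ k)).re) ≤
      μ * mo J p M k := by
  have h1 : ∀ j ∈ J, ex (J.erase j) p (fun S => (trace (M j * Ts M S ^ k)).re) ≤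
      ex J p fun S => (trace (M j * Ts M S ^ k)).re := by
    intro j hj
    rw [ex_erase J p j hj (fun S => (trace (M j * Ts M S ^ k)).re)]
    refine ex_mono _ p (fun i hi => hp i (Finset.mem_of_mem_erase hi)) _ _ fun S hS => ?_
    have hjS : j ∉ S := fun h => Finset.notMem_erase j J (hS h)
    have e1 : Ts M (insert j S) = M j + Ts M S := by
      unfold Ts
      rw [Finset.sum_insert hjS]
    have hSJ : S ⊆ J := hS.trans (Finset.erase_subset j J)
    have h2 := mono_step (M j) (Ts M S) (hM j hj) (Ts_psd M J hM S hSJ) k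
    rw [e1]
    have h3 := hp j hj
    nlinarith
  have h4 : ∑ j ∈ J, p j * ex (J.erase j) p (fun S => (trace (M j * Ts M S ^ k)).re) ≤
      ∑ j ∈ J, p j * ex J p fun S => (trace (M j * Ts M S ^ k)).re :=
    Finset.sum_le_sum fun j hj => mul_le_mul_of_nonneg_left (h1 j hj) (hp j hj).1
  refine h4.trans ?_
  unfold mo
  rw [← ex_mul]
  have h5 : ∑ j ∈ J, p j * ex J p (fun S => (trace (M j * Ts M S ^ k)).re) =
      ex J p fun S => (trace ((∑ j ∈ J, (p j : ℂ) • M j) * Ts M S ^ k)).re := by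
    simp_rw [← ex_mul]
    rw [← ex_sum]
    refine ex_congr _ _ _ _ fun S _ => ?_
    rw [Finset.sum_mul, trace_sum, Complex.re_sum]
    refine Finset.sum_congr rfl fun j _ => ?_
    rw [Matrix.smul_mul, trace_smul, smul_eq_mul, Complex.re_ofReal_mul]
  rw [h5]
  refine ex_mono J p hp _ _ fun S hS => ?_
  exact tr_mul_le _ _ μ hμ ((Ts_psd M J hM S hS).pow k)

/-- the recursion -/
theorem mo_rec (J : Finset α) (p : α → ℝ) (hp : ∀ j ∈ J, 0 ≤ p j ∧ p j ≤ 1)
    (M : α → Matrix ι ι ℂ) (hM : ∀ j ∈ J, (M j).PosSemidef)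
    (hM1 : ∀ j ∈ J, (1 - M j).PosSemidef) (μ : ℝ)
    (hμ : ((μ : ℂ) • (1 : Matrix ι ι ℂ) - ∑ j ∈ J, (p j : ℂ) • M j).PosSemidef) (m : ℕ) :
    mo J p M (m + 2) ≤ μ * mo J p M (m + 1) + ((m : ℝ) + 1) / 2 * (mo J p M (m + 1) +
      ∑ j ∈ J, p j * ex (J.erase j) p (fun S => (trace (M j * Ts M S ^ m)).re)) := by
  rw [mo_succ J p M (m + 1)]
  have h1 : ∀ j ∈ J, ex (J.erase j) p (fun S => (trace (M j * (M j + Ts M S) ^ (m + 1))).re) ≤
      ex (J.erase j) p (fun S => (trace (M j * Ts M S ^ (m + 1))).re) + ((m : ℝ) + 1) / 2 *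
        (ex (J.erase j) p (fun S => (trace (M j * (M j + Ts M S) ^ m)).re) +
        ex (J.erase j) p (fun S => (trace (M j * Ts M S ^ m)).re)) := by
    intro j hj
    rw [← ex_add, ← ex_mul, ← ex_add]
    refine ex_mono _ p (fun i hi => hp i (Finset.mem_of_mem_erase hi)) _ _ fun S hS => ?_
    have hSJ : S ⊆ J := hS.trans (Finset.erase_subset j J)
    exact one_step (M j) (Ts M S) (hM j hj) (hM1 j hj) (Ts_psd M J hM S hSJ) m
  have h2 := Finset.sum_le_sum fun j hj => mul_le_mul_of_nonneg_left (h1 j hj) (hp j hj).1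
  refine h2.trans ?_
  have h3 := mo_up J p hp M hM μ hμ (m + 1)
  have h4 := mo_succ J p M m
  have e : ∑ j ∈ J, p j * (ex (J.erase j) p (fun S => (trace (M j * Ts M S ^ (m + 1))).re) +
      ((m : ℝ) + 1) / 2 * (ex (J.erase j) p (fun S => (trace (M j * (M j + Ts M S) ^ m)).re) +
        ex (J.erase j) p (fun S => (trace (M j * Ts M S ^ m)).re))) =
      ∑ j ∈ J, p j * ex (J.erase j) p (fun S => (trace (M j * Ts M S ^ (m + 1))).re) +
      ((m : ℝ) + 1) / 2 * (∑ j ∈ J, p j *
        ex (J.erase j) p (fun S => (trace (M j * (M j + Ts M S) ^ m)).re) +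
        ∑ j ∈ J, p j * ex (J.erase j) p (fun S => (trace (M j * Ts M S ^ m)).re)) := by
    rw [← Finset.sum_add_distrib, Finset.mul_sum, ← Finset.sum_add_distrib]
    exact Finset.sum_congr rfl fun j _ => by ring
  rw [e, ← h4]
  linarith

/-- the first moment -/
theorem mo_one (J : Finset α) (p : α → ℝ) (M : α → Matrix ι ι ℂ) :
    mo J p M 1 = ∑ j ∈ J, p j * (trace (M j)).re := by
  have h := mo_succ J p M 0
  rw [zero_add] at h
  rw [h]
  refine Finset.sum_congr rfl fun j _ => ?_
  congr 1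
  have : (fun S : Finset α => (trace (M j * (M j + Ts M S) ^ 0)).re) =
      fun _ => (trace (M j)).re * 1 := by
    ext S
    rw [pow_zero, Matrix.mul_one, mul_one]
  rw [this, ex_mul, ex_one, mul_one]

/-- **The moment bound.** -/
theorem mo_le (J : Finset α) (p : α → ℝ) (hp : ∀ j ∈ J, 0 ≤ p j ∧ p j ≤ 1)
    (M : α → Matrix ι ι ℂ) (hM : ∀ j ∈ J, (M j).PosSemidef)
    (hM1 : ∀ j ∈ J, (1 - M j).PosSemidef) (μ : ℝ) (hμ0 : 0 ≤ μ)
    (hμ : ((μ : ℂ) • (1 : Matrix ι ι ℂ) - ∑ j ∈ J, (p j : ℂ) • M j).PosSemidef) (K : ℕ) :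
    ∀ k : ℕ, k + 1 ≤ K → mo J p M (k + 1) ≤ mo J p M 1 * (μ + K) ^ k := by
  set b : ℝ := mo J p M 1 with hb
  have hb0 : 0 ≤ b := by
    refine ex_nonneg J p hp _ fun S hS => ?_
    rw [pow_one]
    exact (Complex.le_def.1 (Ts_psd M J hM S hS).trace_nonneg).1
  have key : ∀ k : ℕ, (k + 1 ≤ K → mo J p M (k + 1) ≤ b * (μ + K) ^ k) ∧
      (k + 2 ≤ K → mo J p M (k + 2) ≤ b * (μ + K) ^ (k + 1)) := by
    intro k
    induction k with
    | zero =>
      refine ⟨fun _ => by simp [hb], fun hK => ?_⟩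
      have h1 := mo_rec J p hp M hM hM1 μ hμ 0
      have h2 : ∑ j ∈ J, p j * ex (J.erase j) p (fun S => (trace (M j * Ts M S ^ 0)).re) = b := by
        rw [hb, mo_one]
        refine Finset.sum_congr rfl fun j _ => ?_
        congr 1
        have : (fun S : Finset α => (trace (M j * Ts M S ^ 0)).re) =
            fun _ => (trace (M j)).re * 1 := by
          ext S
          rw [pow_zero, Matrix.mul_one, mul_one]
        rw [this, ex_mul, ex_one, mul_one]
      rw [h2, zero_add, zero_add, ← hb] at h1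
      have hK' : (2 : ℝ) ≤ K := by exact_mod_cast hK
      have h3 : mo J p M (0 + 2) ≤ b * (μ + 1) := by
        refine h1.trans (le_of_eq ?_)
        push_cast
        ring
      refine h3.trans ?_
      rw [zero_add, pow_one]
      exact mul_le_mul_of_nonneg_left (by linarith) hb0
    | succ k ih =>
      refine ⟨fun hK => ih.2 (by omega), fun hK => ?_⟩
      have h1 := mo_rec J p hp M hM hM1 μ hμ (k + 1)
      have h2 := mo_up J p hp M hM μ hμ (k + 1)
      have h3 := ih.1 (by omega)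
      have h4 := ih.2 (by omega)
      have hK' : ((k : ℝ) + 1 + 2) ≤ K := by exact_mod_cast hK
      have hL : 0 ≤ μ + K := by positivity
      have hk : (0 : ℝ) ≤ k := Nat.cast_nonneg k
      set L : ℝ := μ + K with hLd
      set X : ℝ := mo J p M (k + 1 + 1) with hX
      set Y : ℝ := mo J p M (k + 1) with hY
      have hP : 0 ≤ b * L ^ k := by positivity
      have h5 : mo J p M (k + 1 + 2) ≤ μ * X + ((k : ℝ) + 1 + 1) / 2 * (X + μ * Y) := by
        refine h1.trans ?_
        push_cast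
        have : (0 : ℝ) ≤ ((k : ℝ) + 1 + 1) / 2 := by positivity
        nlinarith [mul_le_mul_of_nonneg_left h2 this]
      have h6 : μ * X + ((k : ℝ) + 1 + 1) / 2 * (X + μ * Y) ≤
          μ * (b * L ^ (k + 1)) + ((k : ℝ) + 1 + 1) / 2 * (b * L ^ (k + 1) + μ * (b * L ^ k)) := by
        gcongr
      refine h5.trans (h6.trans ?_)
      have e1 : b * L ^ (k + 1) = (b * L ^ k) * L := by ring
      have e2 : b * L ^ (k + 1 + 1) = (b * L ^ k) * (L * L) := by ring
      rw [e1, e2]
      have h7 : μ * L + ((k : ℝ) + 1 + 1) / 2 * (L + μ) ≤ L * L := by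
        have hμL : μ ≤ L := by
          rw [hLd]
          have : (0 : ℝ) ≤ K := Nat.cast_nonneg K
          linarith
        have a1 : ((k : ℝ) + 1 + 1) / 2 * (L + μ) ≤ ((k : ℝ) + 2) * L := by nlinarith
        have a2 : μ * L + ((k : ℝ) + 2) * L ≤ L * L := by
          have : μ + ((k : ℝ) + 2) ≤ L := by rw [hLd]; linarith
          nlinarith
        linarith
      nlinarith [mul_le_mul_of_nonneg_left h7 hP]
  exact fun k => (key k).1

end Pool.Agent.N248.RM
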