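import Mathlib
import Pool.Agent.N248.RM.B
set_option autoImplicit false

/-! Random sampling of measures: the moment bound in a Hilbert space. -/

namespace Pool.Agent.N248.RM

open Matrix Finset MeasureTheory
open scoped ComplexOrder ComplexConjugate InnerProductSpace

section

variable {Ω : Type*} [MeasurableSpace Ω] {H : Type*} [AddCommGroup H] [Module ℂ H]
  (T : Ω → H →ₗ[ℂ] ℂ) (ν : Measure Ω)
  {ι : Type*} [Fintype ι] [DecidableEq ι]

/-- the Gram matrix -/
noncomputable def Gr (f : ι → H) : Matrix ι ι ℂ :=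
  fun a b => ∫ x, conj (T x (f a)) * T x (f b) ∂ν

/-- the quadratic form of the measure -/
noncomputable def qf (v : H) : ℝ := ∫ x, ‖T x v‖ ^ 2 ∂ν

variable (hm : ∀ v, AEStronglyMeasurable (fun x => T x v) ν)
  (hi : ∀ v, Integrable (fun x => ‖T x v‖ ^ 2) ν)

include hm hi

theorem prod_int (v w : H) : Integrable (fun x => conj (T x v) * T x w) ν := by
  refine Integrable.mono' ((hi v).add (hi w)) ?_ ?_
  · exact (Complex.continuous_conj.comp_aestronglyMeasurable (hm v)).mul (hm w)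
  · refine Filter.Eventually.of_forall fun x => ?_
    rw [norm_mul, Complex.norm_conj]
    simp only [Pi.add_apply]
    nlinarith [sq_nonneg (‖T x v‖ - ‖T x w‖), norm_nonneg (T x v), norm_nonneg (T x w)]

/-- the quadratic form of the Gram matrix -/
theorem Gr_quad (f : ι → H) (c : ι → ℂ) :
    star c ⬝ᵥ (Gr T ν f *ᵥ c) = ((qf T ν (∑ a, c a • f a) : ℝ) : ℂ) := by
  unfold qf
  rw [← integral_complex_ofReal]
  have h1 : ∀ x, ((‖T x (∑ a, c a • f a)‖ ^ 2 : ℝ) : ℂ) =
      ∑ a, ∑ b, conj (c a) * c b * (conj (T x (f a)) * T x (f b)) := by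
    intro x
    have h2 : ((‖T x (∑ a, c a • f a)‖ ^ 2 : ℝ) : ℂ) =
        conj (T x (∑ a, c a • f a)) * T x (∑ a, c a • f a) := by
      rw [← Complex.normSq_eq_conj_mul_self, Complex.normSq_eq_norm_sq]
    rw [h2, map_sum, map_sum, Finset.sum_mul]
    refine Finset.sum_congr rfl fun a _ => ?_
    rw [Finset.mul_sum]
    refine Finset.sum_congr rfl fun b _ => ?_
    rw [(T x).map_smul, (T x).map_smul, smul_eq_mul, smul_eq_mul, map_mul]
    ring
  simp_rw [h1]
  rw [integral_finsetSum]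
  · unfold dotProduct
    refine Finset.sum_congr rfl fun a _ => ?_
    rw [integral_finsetSum]
    · unfold mulVec dotProduct
      rw [Pi.star_apply, Finset.mul_sum]
      refine Finset.sum_congr rfl fun b _ => ?_
      rw [integral_const_mul]
      unfold Gr
      rw [Complex.star_def]
      ring
    · intro b _
      exact (prod_int T ν hm hi (f a) (f b)).const_mul _
  · intro a _
    refine integrable_finsetSum _ fun b _ => ?_
    exact (prod_int T ν hm hi (f a) (f b)).const_mul _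

theorem Gr_herm (f : ι → H) : (Gr T ν f).IsHermitian := by
  ext a b
  rw [conjTranspose_apply]
  unfold Gr
  rw [Complex.star_def, ← integral_conj]
  refine integral_congr_ae (Filter.Eventually.of_forall fun x => ?_)
  simp only [map_mul, Complex.conj_conj]
  ring

theorem Gr_psd (f : ι → H) : (Gr T ν f).PosSemidef := by
  refine PosSemidef.of_dotProduct_mulVec_nonneg (Gr_herm T ν hm hi f) fun c => ?_
  rw [Gr_quad T ν hm hi f c]
  have : 0 ≤ qf T ν (∑ a, c a • f a) := integral_nonneg fun x => by positivity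
  exact_mod_cast this

theorem Gr_trace (f : ι → H) : (trace (Gr T ν f)).re = ∑ a, qf T ν (f a) := by
  unfold trace
  rw [Complex.re_sum]
  refine Finset.sum_congr rfl fun a _ => ?_
  have h := Gr_quad T ν hm hi f (Pi.single a 1)
  have h2 : star (Pi.single a (1 : ℂ)) ⬝ᵥ (Gr T ν f *ᵥ Pi.single a 1) = Gr T ν f a a := by
    rw [mulVec_single_one]
    have : star (Pi.single a (1 : ℂ) : ι → ℂ) = Pi.single a 1 := by
      rw [Pi.star_single, star_one]
    rw [this, single_one_dotProduct]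
    rfl
  rw [h2] at h
  rw [diag_apply, h, Complex.ofReal_re]
  congr 1
  rw [Finset.sum_eq_single a]
  · simp
  · intro b _ hb
    simp [hb]
  · intro h'
    exact absurd (Finset.mem_univ a) h'

end

section

variable {Ω : Type*} [MeasurableSpace Ω] {H : Type*} [NormedAddCommGroup H]
  [InnerProductSpace ℂ H] {α : Type*} [DecidableEq α]

/-- **The moment bound for random sampling.** -/
theorem sampling (T : Ω → H →ₗ[ℂ] ℂ) (ν : α → Measure Ω) (J : Finset α) (p b : α → ℝ)
    (hp : ∀ j ∈ J, 0 ≤ p j ∧ p j ≤ 1)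
    (hm : ∀ j ∈ J, ∀ v, AEStronglyMeasurable (fun x => T x v) (ν j))
    (hi : ∀ j ∈ J, ∀ v, Integrable (fun x => ‖T x v‖ ^ 2) (ν j))
    (h1 : ∀ j ∈ J, ∀ v, qf T (ν j) v ≤ ‖v‖ ^ 2) (μ : ℝ) (hμ0 : 0 ≤ μ)
    (hμ : ∀ v, ∑ j ∈ J, p j * qf T (ν j) v ≤ μ * ‖v‖ ^ 2)
    (hb : ∀ j ∈ J, ∀ (D : ℕ) (f : Fin D → H), Orthonormal ℂ f → ∑ a, qf T (ν j) (f a) ≤ b j)
    (K : ℕ) (hK : K ≠ 0) (v : Finset α → H) (hv : ∀ S, ‖v S‖ ≤ 1) :
    ex J p (fun S => (∑ j ∈ S, qf T (ν j) (v S)) ^ K) ≤
      (∑ j ∈ J, p j * b j) * (μ + K) ^ (K - 1) := by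
  classical
  -- the space
  set V : Submodule ℂ H := Submodule.span ℂ (Set.range fun S : J.powerset => v S) with hV
  have hfd : FiniteDimensional ℂ V := by
    rw [hV]
    exact FiniteDimensional.span_of_finite ℂ (Set.finite_range _)
  set D : ℕ := Module.finrank ℂ V with hD
  set B := stdOrthonormalBasis ℂ V with hB
  set f : Fin D → H := fun a => ((B a : V) : H) with hf
  have hon : Orthonormal ℂ f := B.orthonormal.comp_linearIsometry V.subtypeₗᵢ
  set M : α → Matrix (Fin D) (Fin D) ℂ := fun j => Gr T (ν j) f with hM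
  -- norms of combinations
  have hnorm : ∀ c : Fin D → ℂ, ‖∑ a, c a • f a‖ ^ 2 = ∑ a, ‖c a‖ ^ 2 := by
    intro c
    have h2 := hon.inner_sum c c Finset.univ
    rw [inner_self_eq_norm_sq_to_K] at h2
    have h3 : ((‖∑ a, c a • f a‖ ^ 2 : ℝ) : ℂ) = ((∑ a, ‖c a‖ ^ 2 : ℝ) : ℂ) := by
      push_cast
      rw [show ((‖∑ a, c a • f a‖ : ℝ) : ℂ) ^ 2 = (RCLike.ofReal ‖∑ a, c a • f a‖ : ℂ) ^ 2 from rfl,
        h2]
      refine Finset.sum_congr rfl fun a _ => ?_
      rw [← Complex.normSq_eq_conj_mul_self, Complex.normSq_eq_norm_sq]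
      push_cast
      rfl
    exact_mod_cast h3
  have hPS : ∀ j ∈ J, (M j).PosSemidef := fun j hj => Gr_psd T (ν j) (hm j hj) (hi j hj) f
  have hone : ∀ c : Fin D → ℂ, star c ⬝ᵥ ((1 : Matrix (Fin D) (Fin D) ℂ) *ᵥ c) =
      ((∑ a, ‖c a‖ ^ 2 : ℝ) : ℂ) := by
    intro c
    rw [one_mulVec]
    unfold dotProduct
    push_cast
    refine Finset.sum_congr rfl fun a _ => ?_
    rw [Pi.star_apply, Complex.star_def, ← Complex.normSq_eq_conj_mul_self,
      Complex.normSq_eq_norm_sq]
    push_cast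
    rfl
  have hM1 : ∀ j ∈ J, (1 - M j).PosSemidef := by
    intro j hj
    refine PosSemidef.of_dotProduct_mulVec_nonneg (isHermitian_one.sub (hPS j hj).isHermitian)
      fun c => ?_
    rw [Matrix.sub_mulVec, dotProduct_sub, hone, Gr_quad T (ν j) (hm j hj) (hi j hj) f c,
      ← Complex.ofReal_sub]
    have := h1 j hj (∑ a, c a • f a)
    rw [hnorm] at this
    exact_mod_cast sub_nonneg.2 this
  have hMμ : ((μ : ℂ) • (1 : Matrix (Fin D) (Fin D) ℂ) - ∑ j ∈ J, (p j : ℂ) • M j).PosSemidef := by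
    have hH : (∑ j ∈ J, (p j : ℂ) • M j).IsHermitian := by
      unfold IsHermitian
      rw [conjTranspose_sum]
      refine Finset.sum_congr rfl fun j hj => ?_
      rw [conjTranspose_smul, (hPS j hj).isHermitian.eq, Complex.star_def, Complex.conj_ofReal]
    have hH2 : ((μ : ℂ) • (1 : Matrix (Fin D) (Fin D) ℂ)).IsHermitian := by
      unfold IsHermitian
      rw [conjTranspose_smul, conjTranspose_one, Complex.star_def, Complex.conj_ofReal]
    refine PosSemidef.of_dotProduct_mulVec_nonneg (hH2.sub hH) fun c => ?_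
    have e1 : star c ⬝ᵥ ((∑ j ∈ J, (p j : ℂ) • M j) *ᵥ c) =
        ((∑ j ∈ J, p j * qf T (ν j) (∑ a, c a • f a) : ℝ) : ℂ) := by
      rw [Matrix.sum_mulVec, dotProduct_sum]
      push_cast
      refine Finset.sum_congr rfl fun j hj => ?_
      rw [Matrix.smul_mulVec, dotProduct_smul, Gr_quad T (ν j) (hm j hj) (hi j hj) f c,
        smul_eq_mul]
    rw [Matrix.sub_mulVec, dotProduct_sub, Matrix.smul_mulVec, dotProduct_smul, hone, e1,
      smul_eq_mul, ← Complex.ofReal_mul, ← Complex.ofReal_sub]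
    have := hμ (∑ a, c a • f a)
    rw [hnorm] at this
    exact_mod_cast sub_nonneg.2 this
  -- the moments
  have hmo := mo_le J p hp M hPS hM1 μ hμ0 hMμ K (K - 1) (by omega)
  have hK1 : K - 1 + 1 = K := by omega
  rw [hK1, mo_one] at hmo
  have htr : ∑ j ∈ J, p j * (trace (M j)).re ≤ ∑ j ∈ J, p j * b j := by
    refine Finset.sum_le_sum fun j hj => mul_le_mul_of_nonneg_left ?_ (hp j hj).1
    rw [Gr_trace T (ν j) (hm j hj) (hi j hj) f]
    exact hb j hj D f hon
  refine le_trans ?_ (hmo.trans (mul_le_mul_of_nonneg_right htr (by positivity)))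
  unfold mo
  refine ex_mono J p hp _ _ fun S hS => ?_
  -- coordinates of v S
  have hvV : v S ∈ V := Submodule.subset_span ⟨⟨S, Finset.mem_powerset.2 hS⟩, rfl⟩
  set c : Fin D → ℂ := fun a => B.repr ⟨v S, hvV⟩ a with hc
  have hvS : v S = ∑ a, c a • f a := by
    have h2 := B.sum_repr ⟨v S, hvV⟩
    have h3 := congrArg (Subtype.val : V → H) h2
    simp only at h3
    rw [← h3, AddSubmonoidClass.coe_finsetSum]
    rfl
  have hcn : ∑ a, ‖c a‖ ^ 2 ≤ 1 := by
    rw [← hnorm, ← hvS]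
    have := hv S
    have h0 := norm_nonneg (v S)
    nlinarith
  have hq := quad_le (Ts M S) (Ts_psd M J hPS S hS) K hK c hcn
  refine le_trans (le_of_eq ?_) hq
  congr 1
  unfold Ts
  rw [Matrix.sum_mulVec, dotProduct_sum, Complex.re_sum]
  refine Finset.sum_congr rfl fun j hj => ?_
  rw [Gr_quad T (ν j) (hm j (hS hj)) (hi j (hS hj)) f c, ← hvS, Complex.ofReal_re]

end

end Pool.Agent.N248.RM
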