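import Mathlib
import Pool.Agent.N248.RM.C
set_option autoImplicit false

/-! The tail bound for random sampling. -/

namespace Pool.Agent.N248.RM

open Matrix Finset MeasureTheory
open scoped ComplexOrder ComplexConjugate InnerProductSpace

variable {α : Type*} [DecidableEq α]

/-- the probability of an event for the random subset of `J` -/
noncomputable def Pb (J : Finset α) (p : α → ℝ) (A : Finset α → Prop) : ℝ :=
  open Classical in
  ∑ S ∈ J.powerset, if A S then (∏ j ∈ S, p j) * ∏ j ∈ J \ S, (1 - p j) else 0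

theorem pr_eq (J : Finset α) (p : α → ℝ) (S : Finset α) (hS : S ⊆ J) :
    (∏ j ∈ S, p j) * ∏ j ∈ J \ S, (1 - p j) = pr J p S := by
  unfold pr
  rw [← Finset.prod_sdiff hS, mul_comm]
  congr 1
  · refine Finset.prod_congr rfl fun j hj => ?_
    rw [if_neg (Finset.mem_sdiff.1 hj).2]
  · refine Finset.prod_congr rfl fun j hj => ?_
    rw [if_pos hj]

theorem Pb_eq (J : Finset α) (p : α → ℝ) (A : Finset α → Prop) [DecidablePred A] :
    Pb J p A = ex J p fun S => if A S then 1 else 0 := by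
  unfold Pb ex
  refine Finset.sum_congr rfl fun S hS => ?_
  by_cases h : A S
  · simp only [h, if_true, mul_one]
    exact pr_eq J p S (Finset.mem_powerset.1 hS)
  · simp only [h, if_false, mul_zero]

theorem Pb_nonneg (J : Finset α) (p : α → ℝ) (hp : ∀ j ∈ J, 0 ≤ p j ∧ p j ≤ 1)
    (A : Finset α → Prop) : 0 ≤ Pb J p A := by
  classical
  rw [Pb_eq]
  refine ex_nonneg J p hp _ fun S _ => ?_
  split_ifs <;> norm_num

theorem Pb_mono (J : Finset α) (p : α → ℝ) (hp : ∀ j ∈ J, 0 ≤ p j ∧ p j ≤ 1)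
    (A B : Finset α → Prop) (h : ∀ S ⊆ J, A S → B S) : Pb J p A ≤ Pb J p B := by
  classical
  rw [Pb_eq, Pb_eq]
  refine ex_mono J p hp _ _ fun S hS => ?_
  by_cases hA : A S
  · rw [if_pos hA, if_pos (h S hS hA)]
  · rw [if_neg hA]
    split_ifs <;> norm_num

variable {Ω : Type*} [MeasurableSpace Ω] {H : Type*} [NormedAddCommGroup H]
  [InnerProductSpace ℂ H]

/-- **The tail bound for random sampling.** -/
theorem tail (T : Ω → H →ₗ[ℂ] ℂ) (ν : α → Measure Ω) (J : Finset α) (p b : α → ℝ)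
    (hp : ∀ j ∈ J, 0 ≤ p j ∧ p j ≤ 1)
    (hm : ∀ j ∈ J, ∀ v, AEStronglyMeasurable (fun x => T x v) (ν j))
    (hi : ∀ j ∈ J, ∀ v, Integrable (fun x => ‖T x v‖ ^ 2) (ν j))
    (h1 : ∀ j ∈ J, ∀ v, qf T (ν j) v ≤ ‖v‖ ^ 2) (μ : ℝ) (hμ0 : 0 ≤ μ)
    (hμ : ∀ v, ∑ j ∈ J, p j * qf T (ν j) v ≤ μ * ‖v‖ ^ 2)
    (hb : ∀ j ∈ J, ∀ (D : ℕ) (f : Fin D → H), Orthonormal ℂ f → ∑ a, qf T (ν j) (f a) ≤ b j)
    (K : ℕ) (hK : K ≠ 0) (t : ℝ) (ht : 0 < t) :
    t ^ K * Pb J p (fun S => ∃ v, t * ‖v‖ ^ 2 < ∑ j ∈ S, qf T (ν j) v) ≤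
      (∑ j ∈ J, p j * b j) * (μ + K) ^ (K - 1) := by
  classical
  have hq0 : ∀ (j : α) (v : H), 0 ≤ qf T (ν j) v := fun j v => integral_nonneg fun x => by positivity
  have hsc : ∀ (j : α) (c : ℝ) (v : H), qf T (ν j) ((c : ℂ) • v) = c ^ 2 * qf T (ν j) v := by
    intro j c v
    unfold qf
    rw [← integral_const_mul]
    refine integral_congr_ae (Filter.Eventually.of_forall fun x => ?_)
    simp only
    rw [(T x).map_smul, norm_smul, mul_pow, Complex.norm_real, Real.norm_eq_abs, sq_abs]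
  -- the choice of a vector
  have hex : ∀ S : Finset α, ∃ w : H, ‖w‖ ≤ 1 ∧
      ((∃ v, t * ‖v‖ ^ 2 < ∑ j ∈ S, qf T (ν j) v) → t ≤ ∑ j ∈ S, qf T (ν j) w) := by
    intro S
    by_cases h : ∃ v, t * ‖v‖ ^ 2 < ∑ j ∈ S, qf T (ν j) v
    · obtain ⟨v, hv⟩ := h
      have hv0 : v ≠ 0 := by
        rintro rfl
        have : ∑ j ∈ S, qf T (ν j) (0 : H) = 0 := by
          refine Finset.sum_eq_zero fun j _ => ?_
          unfold qf
          simp
        rw [this, norm_zero] at hv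
        simp at hv
      have hn : 0 < ‖v‖ := norm_pos_iff.2 hv0
      refine ⟨((‖v‖⁻¹ : ℝ) : ℂ) • v, ?_, fun _ => ?_⟩
      · rw [norm_smul, Complex.norm_real, norm_inv, norm_norm, inv_mul_cancel₀ hn.ne']
      · simp_rw [hsc]
        rw [← Finset.mul_sum, inv_pow, ← div_eq_inv_mul, le_div_iff₀ (by positivity)]
        exact hv.le
    · exact ⟨0, by simp, fun h' => absurd h' h⟩
  choose w hw1 hw2 using hex
  have hs := sampling T ν J p b hp hm hi h1 μ hμ0 hμ hb K hK w hw1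
  refine le_trans ?_ hs
  rw [Pb_eq, ← ex_mul]
  refine ex_mono J p hp _ _ fun S _ => ?_
  by_cases h : ∃ v, t * ‖v‖ ^ 2 < ∑ j ∈ S, qf T (ν j) v
  · rw [if_pos h, mul_one]
    exact pow_le_pow_left₀ ht.le (hw2 S h) K
  · rw [if_neg h, mul_zero]
    exact pow_nonneg (Finset.sum_nonneg fun j _ => hq0 j _) K

/-- the exponential tail -/
theorem tail_exp (T : Ω → H →ₗ[ℂ] ℂ) (ν : α → Measure Ω) (J : Finset α) (p : α → ℝ)
    (β : ℝ) (hβ : 1 ≤ β) (hp : ∀ j ∈ J, 0 ≤ p j ∧ p j ≤ 1)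
    (hm : ∀ j ∈ J, ∀ v, AEStronglyMeasurable (fun x => T x v) (ν j))
    (hi : ∀ j ∈ J, ∀ v, Integrable (fun x => ‖T x v‖ ^ 2) (ν j))
    (h1 : ∀ j ∈ J, ∀ v, qf T (ν j) v ≤ ‖v‖ ^ 2) (μ : ℝ) (hμ0 : 0 ≤ μ)
    (hμ : ∀ v, ∑ j ∈ J, p j * qf T (ν j) v ≤ μ * ‖v‖ ^ 2)
    (hb : ∀ j ∈ J, ∀ (D : ℕ) (f : Fin D → H), Orthonormal ℂ f → ∑ a, qf T (ν j) (f a) ≤ β)
    (τ : ℝ) (hτ : 1 ≤ τ) :
    Pb J p (fun S => ∃ v, 18 * β * (μ + τ) * ‖v‖ ^ 2 < ∑ j ∈ S, qf T (ν j) v) ≤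
      (∑ j ∈ J, p j) * Real.exp (-τ) := by
  set K : ℕ := ⌈τ⌉₊ with hK
  have hK1 : τ ≤ K := Nat.le_ceil τ
  have hK2 : (K : ℝ) < τ + 1 := Nat.ceil_lt_add_one (by linarith)
  have hK0 : K ≠ 0 := by
    intro h
    rw [h] at hK1
    norm_num at hK1
    linarith
  obtain ⟨k, hk⟩ : ∃ k, K = k + 1 := ⟨K - 1, by omega⟩
  set t : ℝ := 18 * β * (μ + τ) with ht
  have ht0 : 0 < t := by positivity
  have h := tail T ν J p (fun _ => β) hp hm hi h1 μ hμ0 hμ hb K hK0 t ht0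
  set P := Pb J p (fun S => ∃ v, t * ‖v‖ ^ 2 < ∑ j ∈ S, qf T (ν j) v) with hP
  have hP0 : 0 ≤ P := Pb_nonneg J p hp _
  set s : ℝ := ∑ j ∈ J, p j with hs
  have hs0 : 0 ≤ s := Finset.sum_nonneg fun j hj => (hp j hj).1
  rw [← Finset.sum_mul, ← hs] at h
  have h2 : μ + K ≤ 2 * (μ + τ) := by linarith
  have hμK : 0 ≤ μ + K := by positivity
  have h3 : t ^ K * P ≤ s * β * (2 * (μ + τ)) ^ k := by
    refine h.trans ?_
    have : K - 1 = k := by omega
    rw [this]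
    exact mul_le_mul_of_nonneg_left (pow_le_pow_left₀ hμK h2 k) (by positivity)
  -- t = 9 β (2 (μ + τ))
  have hy0 : 0 < 2 * (μ + τ) := by linarith
  set y : ℝ := 2 * (μ + τ) with hy
  have hty : t = 9 * β * y := by rw [ht, hy]; ring
  have h4 : (9 * β) ^ K * (y * P) ≤ s * β := by
    have h5 : (9 * β) ^ K * (y * P) * y ^ k ≤ s * β * y ^ k := by
      have e : (9 * β) ^ K * (y * P) * y ^ k = t ^ K * P := by
        rw [hty, mul_pow (9 * β) y K, hk, pow_succ y k]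
        ring
      rw [e]
      exact h3
    exact le_of_mul_le_mul_right h5 (by positivity)
  have hexp : Real.exp τ ≤ 9 ^ k * 9 := by
    have h6 : Real.exp 1 ≤ 3 := by
      have := Real.exp_one_lt_d9
      linarith
    calc Real.exp τ ≤ Real.exp K := Real.exp_le_exp.2 hK1
      _ = Real.exp 1 ^ K := by rw [← Real.exp_nat_mul, mul_one]
      _ ≤ 3 ^ K := pow_le_pow_left₀ (Real.exp_pos _).le h6 K
      _ ≤ 9 ^ K := pow_le_pow_left₀ (by norm_num) (by norm_num) K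
      _ = 9 ^ k * 9 := by rw [hk, pow_succ]
  have hβk : (9 * β) ^ K = 9 ^ k * 9 * (β ^ k * β) := by
    rw [hk, mul_pow, pow_succ, pow_succ]
  have hβ1 : 1 ≤ β ^ k := one_le_pow₀ hβ
  have hy1 : 1 ≤ y := by rw [hy]; linarith
  have h7 : Real.exp τ * P ≤ s := by
    have hβ0 : 0 < β := by linarith
    have h8 : Real.exp τ * P * β ≤ s * β := by
      refine le_trans ?_ h4
      rw [hβk]
      have a1 : Real.exp τ * P ≤ 9 ^ k * 9 * P := mul_le_mul_of_nonneg_right hexp hP0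
      have a2 : 9 ^ k * 9 * P ≤ 9 ^ k * 9 * (β ^ k) * (y * P) := by
        have : P ≤ β ^ k * (y * P) := by
          calc P = 1 * (1 * P) := by ring
            _ ≤ β ^ k * (y * P) := mul_le_mul hβ1 (mul_le_mul_of_nonneg_right hy1 hP0)
                (by simpa using hP0) (by positivity)
        calc 9 ^ k * 9 * P ≤ 9 ^ k * 9 * (β ^ k * (y * P)) :=
              mul_le_mul_of_nonneg_left this (by positivity)
          _ = _ := by ring
      calc Real.exp τ * P * β ≤ 9 ^ k * 9 * (β ^ k) * (y * P) * β :=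
            mul_le_mul_of_nonneg_right (a1.trans a2) hβ0.le
        _ = _ := by ring
    exact le_of_mul_le_mul_right h8 hβ0
  rw [Real.exp_neg, ← div_eq_mul_inv, le_div_iff₀ (Real.exp_pos τ)]
  linarith

end Pool.Agent.N248.RM
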