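import Mathlib
import Pool.Agent.N248.RM.D
import Pool.Agent.R412.RT.C
set_option autoImplicit false

/-! The extension operator of the paraboloid on `L²` and the random sampling of cubes. -/

namespace Pool.Agent.N248.RM

open MeasureTheory Complex Set
open scoped ENNReal NNReal RealInnerProductSpace ComplexConjugate
open Pool.Agent.R412.RT (ee ee_norm ee_cont ee_meas ee_add ee_conj Phi Ex Ex_meas Ey Ex_eq cov slab
  Vs Jn Jn_eq inner_eq Phi_cast Phi_last)

variable {n : ℕ}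

theorem Phi_meas : Measurable (Phi (n := n)) := by
  unfold Phi
  fun_prop

/-- the slab estimate for the last coordinate -/
theorem slabL (w : ℝ → ℝ≥0∞) (hw : Measurable w) (g : EuclideanSpace ℝ (Fin n) → ℂ)
    (hg : Integrable g) :
    ∫⁻ x : EuclideanSpace ℝ (Fin (n + 1)), w (x (Fin.last n)) * ‖Ex g x‖ₑ ^ 2 ≤
      (∫⁻ a, w a) * ∫⁻ x, ‖g x‖ₑ ^ 2 := by
  set e : OrthonormalBasis (Fin (n + 1)) ℝ (EuclideanSpace ℝ (Fin (n + 1))) :=
    EuclideanSpace.basisFun (Fin (n + 1)) ℝ with he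
  have hJ : ∀ x : EuclideanSpace ℝ (Fin n), Jn e (Fin.last n) x = 1 := by
    intro x
    rw [Jn_eq]
    have h1 : e (Fin.last n) (Fin.last n) = 1 := by simp [he]
    have h2 : ∀ j : Fin n, e (Fin.last n) j.castSucc = 0 := by
      intro j
      simp only [he, EuclideanSpace.basisFun_apply, PiLp.single_apply]
      rw [if_neg]
      exact (Fin.castSucc_lt_last j).ne
    rw [h1]
    simp [h2]
  have h := slab e (Fin.last n) 1 w hw g hg (fun x hx => by
    exfalso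
    apply hx
    show 0 < 1 * Jn e (Fin.last n) x
    rw [hJ]
    norm_num)
  have h3 : ∀ x : EuclideanSpace ℝ (Fin n),
      ‖g x‖ₑ ^ 2 / ENNReal.ofReal |Jn e (Fin.last n) x| = ‖g x‖ₑ ^ 2 := by
    intro x
    rw [hJ]
    simp
  simp_rw [h3] at h
  refine le_trans (le_of_eq ?_) h
  have hEm := Ex_meas g hg.1
  have hc := cov e (fun x : EuclideanSpace ℝ (Fin (n + 1)) => w (x (Fin.last n)) * ‖Ex g x‖ₑ ^ 2)
    ((hw.comp (by fun_prop)).mul (hEm.enorm.pow_const 2))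
  rw [hc]
  refine lintegral_congr fun y => ?_
  rw [Ex_eq]
  congr 2

/-- the measure space of the frequencies -/
noncomputable abbrev mQ (Q : Set (EuclideanSpace ℝ (Fin n))) :
    Measure (EuclideanSpace ℝ (Fin n)) := volume.restrict Q

/-- the characters -/
noncomputable def ch (x : EuclideanSpace ℝ (Fin (n + 1))) (ξ : EuclideanSpace ℝ (Fin n)) : ℂ :=
  conj (ee ⟪Phi ξ, x⟫)

theorem ch_norm (x : EuclideanSpace ℝ (Fin (n + 1))) (ξ : EuclideanSpace ℝ (Fin n)) :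
    ‖ch x ξ‖ = 1 := by
  unfold ch
  rw [Complex.norm_conj, ee_norm]

theorem ch_meas (x : EuclideanSpace ℝ (Fin (n + 1))) : Measurable (ch (n := n) x) :=
  Complex.continuous_conj.measurable.comp (ee_meas.comp (Phi_meas.inner measurable_const))

variable (Q : Set (EuclideanSpace ℝ (Fin n)))

theorem ch_mem (hQ : volume Q ≠ ∞) (x : EuclideanSpace ℝ (Fin (n + 1))) :
    MemLp (ch x) 2 (mQ Q) := by
  have : IsFiniteMeasure (mQ Q) := ⟨by rw [Measure.restrict_apply_univ]; exact hQ.lt_top⟩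
  exact MemLp.of_bound (ch_meas x).aestronglyMeasurable 1
    (Filter.Eventually.of_forall fun ξ => (ch_norm x ξ).le)

/-- the extension operator on `L²` -/
noncomputable def TT (hQ : volume Q ≠ ∞) (x : EuclideanSpace ℝ (Fin (n + 1))) :
    Lp ℂ 2 (mQ Q) →ₗ[ℂ] ℂ := (innerSL ℂ ((ch_mem Q hQ x).toLp (ch x))).toLinearMap

theorem TT_inner (hQ : volume Q ≠ ∞) (x : EuclideanSpace ℝ (Fin (n + 1))) (v : Lp ℂ 2 (mQ Q)) :
    TT Q hQ x v = inner ℂ ((ch_mem Q hQ x).toLp (ch x)) v := rfl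

theorem TT_eq (hQ : volume Q ≠ ∞) (hQm : MeasurableSet Q) (x : EuclideanSpace ℝ (Fin (n + 1)))
    (v : Lp ℂ 2 (mQ Q)) :
    TT Q hQ x v = Ex (Q.indicator v) x := by
  rw [TT_inner, L2.inner_def]
  unfold Ex
  have h1 : ∀ᵐ ξ ∂(mQ Q), inner ℂ (((ch_mem Q hQ x).toLp (ch x) : Lp ℂ 2 (mQ Q)) ξ) (v ξ) =
      ee ⟪Phi ξ, x⟫ * v ξ := by
    filter_upwards [(ch_mem Q hQ x).coeFn_toLp] with ξ hξ
    rw [hξ]
    unfold ch
    rw [RCLike.inner_apply, Complex.conj_conj, mul_comm]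
  rw [integral_congr_ae h1, ← integral_indicator hQm]
  refine integral_congr_ae (Filter.Eventually.of_forall fun ξ => ?_)
  simp only
  by_cases hξ : ξ ∈ Q
  · rw [indicator_of_mem hξ, indicator_of_mem hξ]
  · rw [indicator_of_notMem hξ, indicator_of_notMem hξ, mul_zero]

theorem TT_toLp (hQ : volume Q ≠ ∞) (hQm : MeasurableSet Q) (x : EuclideanSpace ℝ (Fin (n + 1)))
    (f : EuclideanSpace ℝ (Fin n) → ℂ) (hf : MemLp f 2 (mQ Q)) :
    TT Q hQ x (hf.toLp f) = Ex (Q.indicator f) x := by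
  rw [TT_eq Q hQ hQm]
  unfold Ex
  refine integral_congr_ae ?_
  have h1 := (ae_restrict_iff' hQm).1 hf.coeFn_toLp
  filter_upwards [h1] with ξ hξ
  by_cases h : ξ ∈ Q
  · rw [indicator_of_mem h, indicator_of_mem h, hξ h]
  · rw [indicator_of_notMem h, indicator_of_notMem h]

theorem g_norm (hQ : volume Q ≠ ∞) (x : EuclideanSpace ℝ (Fin (n + 1))) :
    ‖(ch_mem Q hQ x).toLp (ch x)‖ ^ 2 = (volume Q).toReal := by
  have h := inner_self_eq_norm_sq_to_K (𝕜 := ℂ) ((ch_mem Q hQ x).toLp (ch x))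
  rw [L2.inner_def] at h
  have h1 : ∀ᵐ ξ ∂(mQ Q), inner ℂ (((ch_mem Q hQ x).toLp (ch x) : Lp ℂ 2 (mQ Q)) ξ)
      (((ch_mem Q hQ x).toLp (ch x) : Lp ℂ 2 (mQ Q)) ξ) = (1 : ℂ) := by
    filter_upwards [(ch_mem Q hQ x).coeFn_toLp] with ξ hξ
    rw [hξ, inner_self_eq_norm_sq_to_K, ch_norm]
    simp
  rw [integral_congr_ae h1, integral_const] at h
  have h2 : (((‖(ch_mem Q hQ x).toLp (ch x)‖ ^ 2 : ℝ)) : ℂ) = (((volume Q).toReal : ℝ) : ℂ) := by
    push_cast
    rw [show ((‖(ch_mem Q hQ x).toLp (ch x)‖ : ℝ) : ℂ) ^ 2 =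
      (RCLike.ofReal ‖(ch_mem Q hQ x).toLp (ch x)‖ : ℂ) ^ 2 from rfl, ← h]
    simp [Measure.real]
  exact_mod_cast h2

theorem ind_int (hQ : volume Q ≠ ∞) (hQm : MeasurableSet Q) (v : Lp ℂ 2 (mQ Q)) :
    Integrable (Q.indicator v) := by
  have : IsFiniteMeasure (mQ Q) := ⟨by rw [Measure.restrict_apply_univ]; exact hQ.lt_top⟩
  rw [integrable_indicator_iff hQm]
  exact (Lp.memLp v).integrable (by norm_num)

theorem ind_norm (hQm : MeasurableSet Q) (v : Lp ℂ 2 (mQ Q)) :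
    ∫⁻ ξ, ‖Q.indicator v ξ‖ₑ ^ 2 = ENNReal.ofReal (‖v‖ ^ 2) := by
  have h1 : ∫⁻ ξ, ‖Q.indicator v ξ‖ₑ ^ 2 = ∫⁻ ξ in Q, ‖v ξ‖ₑ ^ 2 := by
    rw [← lintegral_indicator hQm]
    refine lintegral_congr fun ξ => ?_
    by_cases h : ξ ∈ Q
    · rw [indicator_of_mem h, indicator_of_mem h]
    · rw [indicator_of_notMem h, indicator_of_notMem h]; simp
  have h2 : ‖v‖ ^ 2 = (∫⁻ ξ in Q, ‖v ξ‖ₑ ^ 2).toReal := by
    rw [Lp.norm_def, ← ENNReal.toReal_pow]
    congr 1
    rw [eLpNorm_eq_lintegral_rpow_enorm_toReal (by norm_num) (by norm_num)]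
    simp only [ENNReal.toReal_ofNat, ENNReal.rpow_ofNat]
    rw [← ENNReal.rpow_natCast, ← ENNReal.rpow_mul]
    norm_num
  rw [h1, h2, ENNReal.ofReal_toReal]
  have h3 := (Lp.memLp v).2
  rw [eLpNorm_lt_top_iff_lintegral_rpow_enorm_lt_top (by norm_num) (by norm_num)] at h3
  simpa using h3.ne

/-- the energy in a slab -/
theorem energy_slab (hQ : volume Q ≠ ∞) (hQm : MeasurableSet Q) (v : Lp ℂ 2 (mQ Q))
    (B : Set (EuclideanSpace ℝ (Fin (n + 1)))) (hB : MeasurableSet B) (a b : ℝ)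
    (hsl : ∀ x ∈ B, x (Fin.last n) ∈ Icc a b) :
    ∫⁻ x in B, ‖TT Q hQ x v‖ₑ ^ 2 ≤ ENNReal.ofReal (b - a) * ENNReal.ofReal (‖v‖ ^ 2) := by
  simp_rw [TT_eq Q hQ hQm]
  have h := slabL ((Icc a b).indicator 1) (measurable_one.indicator measurableSet_Icc)
    (Q.indicator v) (ind_int Q hQ hQm v)
  rw [lintegral_indicator_one measurableSet_Icc, Real.volume_Icc, ind_norm Q hQm v] at h
  refine le_trans ?_ h
  rw [← lintegral_indicator hB]
  refine lintegral_mono fun x => ?_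
  by_cases hx : x ∈ B
  · rw [indicator_of_mem hx, indicator_of_mem (hsl x hx), Pi.one_apply, one_mul]
  · rw [indicator_of_notMem hx]; exact zero_le

theorem TT_meas (hQ : volume Q ≠ ∞) (hQm : MeasurableSet Q) (v : Lp ℂ 2 (mQ Q)) :
    Measurable fun x => TT Q hQ x v := by
  have : (fun x => TT Q hQ x v) = Ex (Q.indicator v) := funext fun x => TT_eq Q hQ hQm x v
  rw [this]
  exact Ex_meas _ (ind_int Q hQ hQm v).1

/-- the unit cube -/
def uc (j : Fin (n + 1) → ℤ) : Set (EuclideanSpace ℝ (Fin (n + 1))) :=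
  {x | ∀ i, (j i : ℝ) ≤ x i ∧ x i < j i + 1}

theorem uc_meas (j : Fin (n + 1) → ℤ) : MeasurableSet (uc j) := by
  have : uc j = ⋂ i, {x : EuclideanSpace ℝ (Fin (n + 1)) | (j i : ℝ) ≤ x i} ∩
      {x | x i < j i + 1} := by
    ext x
    simp only [uc, mem_ofPred_eq, mem_iInter, mem_inter_iff]
  rw [this]
  exact MeasurableSet.iInter fun i => (measurableSet_le measurable_const (by fun_prop)).inter
    (measurableSet_lt (by fun_prop) measurable_const)

theorem uc_vol (j : Fin (n + 1) → ℤ) : volume (uc j) = 1 := by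
  have h := (PiLp.volume_preserving_ofLp (Fin (n + 1))).measure_preimage
    (s := Set.univ.pi fun i => Ico (j i : ℝ) (j i + 1))
    (MeasurableSet.univ_pi fun i => measurableSet_Ico).nullMeasurableSet
  have h2 : WithLp.ofLp ⁻¹' (Set.univ.pi fun i => Ico (j i : ℝ) (j i + 1)) = uc j := by
    ext x
    simp [uc]
  rw [h2] at h
  rw [h, Real.volume_pi_Ico]
  simp

theorem uc_disj (j k : Fin (n + 1) → ℤ) (h : j ≠ k) : Disjoint (uc j) (uc k) := by
  rw [Set.disjoint_left]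
  intro x hx hy
  apply h
  funext i
  have h1 := hx i
  have h2 := hy i
  have e1 : (j i : ℝ) < k i + 1 := by linarith
  have e2 : (k i : ℝ) < j i + 1 := by linarith
  have e3 : j i < k i + 1 := by exact_mod_cast e1
  have e4 : k i < j i + 1 := by exact_mod_cast e2
  omega

/-- the quadratic form as a Lebesgue integral -/
theorem qf_eq (hQ : volume Q ≠ ∞) (hQm : MeasurableSet Q) (j : Fin (n + 1) → ℤ)
    (v : Lp ℂ 2 (mQ Q)) :
    Integrable (fun x => ‖TT Q hQ x v‖ ^ 2) (volume.restrict (uc j)) ∧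
    ENNReal.ofReal (qf (TT Q hQ) (volume.restrict (uc j)) v) =
      ∫⁻ x in uc j, ‖TT Q hQ x v‖ₑ ^ 2 ∧
    qf (TT Q hQ) (volume.restrict (uc j)) v ≤ ‖v‖ ^ 2 := by
  have hm := TT_meas Q hQ hQm v
  have h1 : ∫⁻ x in uc j, ‖TT Q hQ x v‖ₑ ^ 2 ≤ ENNReal.ofReal (‖v‖ ^ 2) := by
    have := energy_slab Q hQ hQm v (uc j) (uc_meas j) (j (Fin.last n)) (j (Fin.last n) + 1)
      (fun x hx => ⟨(hx _).1, (hx _).2.le⟩)
    simpa using this
  have hi : Integrable (fun x => ‖TT Q hQ x v‖ ^ 2) (volume.restrict (uc j)) := by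
    refine ⟨(hm.norm.pow_const 2).aestronglyMeasurable, ?_⟩
    rw [hasFiniteIntegral_iff_enorm]
    refine lt_of_le_of_lt (le_of_eq ?_) (h1.trans_lt ENNReal.ofReal_lt_top)
    refine lintegral_congr fun x => ?_
    rw [enorm_pow]
    simp
  have h2 : ENNReal.ofReal (qf (TT Q hQ) (volume.restrict (uc j)) v) =
      ∫⁻ x in uc j, ‖TT Q hQ x v‖ₑ ^ 2 := by
    unfold qf
    rw [ofReal_integral_eq_lintegral_ofReal hi (Filter.Eventually.of_forall fun x => by positivity)]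
    refine lintegral_congr fun x => ?_
    rw [ENNReal.ofReal_pow (norm_nonneg _), ofReal_norm]
  refine ⟨hi, h2, ?_⟩
  rw [← h2] at h1
  exact (ENNReal.ofReal_le_ofReal_iff (by positivity)).1 h1

theorem qf_bessel (hQ : volume Q ≠ ∞) (hQm : MeasurableSet Q) (j : Fin (n + 1) → ℤ) (D : ℕ)
    (f : Fin D → Lp ℂ 2 (mQ Q)) (hf : Orthonormal ℂ f) :
    ∑ a, qf (TT Q hQ) (volume.restrict (uc j)) (f a) ≤ (volume Q).toReal := by
  unfold qf
  rw [← integral_finsetSum _ (fun a _ => (qf_eq Q hQ hQm j (f a)).1)]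
  have h1 : ∀ x, ∑ a, ‖TT Q hQ x (f a)‖ ^ 2 ≤ (volume Q).toReal := by
    intro x
    have := hf.sum_inner_products_le ((ch_mem Q hQ x).toLp (ch x)) (s := Finset.univ)
    rw [g_norm Q hQ x] at this
    refine le_trans (le_of_eq ?_) this
    refine Finset.sum_congr rfl fun a _ => ?_
    rw [TT_inner, ← inner_conj_symm, Complex.norm_conj]
  have hfin : IsFiniteMeasure (volume.restrict (uc (n := n) j)) := ⟨by
    rw [Measure.restrict_apply_univ, uc_vol]; exact ENNReal.one_lt_top⟩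
  refine (integral_mono_of_nonneg (Filter.Eventually.of_forall fun x =>
    Finset.sum_nonneg fun a _ => by positivity) (integrable_const (volume Q).toReal)
    (Filter.Eventually.of_forall h1)).trans (le_of_eq ?_)
  rw [integral_const, Measure.real, Measure.restrict_apply_univ, uc_vol]
  simp

end Pool.Agent.N248.RM
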