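import Mathlib
import Pool.Agent.N248.RM.E
set_option autoImplicit false

/-! Random unions of unit cubes. -/

namespace Pool.Agent.N248.RM

open MeasureTheory Complex Set
open scoped ENNReal NNReal RealInnerProductSpace ComplexConjugate
open Pool.Agent.R412.RT (ee ee_norm ee_cont ee_meas ee_add ee_conj Phi Ex Ex_meas)

variable {n : ℕ} (Q : Set (EuclideanSpace ℝ (Fin n)))

/-- the union of the cubes -/
def un (S : Finset (Fin (n + 1) → ℤ)) : Set (EuclideanSpace ℝ (Fin (n + 1))) := ⋃ j ∈ S, uc j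

/-- the estimate with constant `A` on the set `B` -/
def Hd (A : ℝ) (B : Set (EuclideanSpace ℝ (Fin (n + 1)))) : Prop :=
  ∀ f : EuclideanSpace ℝ (Fin n) → ℂ, MemLp f 2 (mQ Q) →
    ∫⁻ x in B, ‖Ex (Q.indicator f) x‖ₑ ^ 2 ≤ ENNReal.ofReal A * eLpNorm f 2 (mQ Q) ^ 2

theorem un_lint (S : Finset (Fin (n + 1) → ℤ)) (F : EuclideanSpace ℝ (Fin (n + 1)) → ℝ≥0∞) :
    ∫⁻ x in un S, F x = ∑ j ∈ S, ∫⁻ x in uc j, F x := by
  unfold un
  exact lintegral_biUnion_finset (fun j _ k _ hjk => uc_disj j k hjk)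
    (fun j _ => uc_meas j) F

theorem norm_toLp (f : EuclideanSpace ℝ (Fin n) → ℂ) (hf : MemLp f 2 (mQ Q)) :
    ENNReal.ofReal (‖hf.toLp f‖ ^ 2) = eLpNorm f 2 (mQ Q) ^ 2 := by
  rw [Lp.norm_toLp, ENNReal.ofReal_pow ENNReal.toReal_nonneg, ENNReal.ofReal_toReal hf.2.ne]

theorem qf_nn (hQ : volume Q ≠ ∞) (j : Fin (n + 1) → ℤ) (v : Lp ℂ 2 (mQ Q)) :
    0 ≤ qf (TT Q hQ) (volume.restrict (uc j)) v := integral_nonneg fun x => by positivity

theorem sum_qf (hQ : volume Q ≠ ∞) (hQm : MeasurableSet Q) (S : Finset (Fin (n + 1) → ℤ))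
    (v : Lp ℂ 2 (mQ Q)) :
    ENNReal.ofReal (∑ j ∈ S, qf (TT Q hQ) (volume.restrict (uc j)) v) =
      ∫⁻ x in un S, ‖TT Q hQ x v‖ₑ ^ 2 := by
  rw [un_lint, ENNReal.ofReal_sum_of_nonneg (fun j _ => qf_nn Q hQ j v)]
  exact Finset.sum_congr rfl fun j _ => (qf_eq Q hQ hQm j v).2.1

theorem not_Hd (hQ : volume Q ≠ ∞) (hQm : MeasurableSet Q) (S : Finset (Fin (n + 1) → ℤ))
    (A : ℝ) (hA : 0 ≤ A) (h : ¬ Hd Q A (un S)) :
    ∃ v, A * ‖v‖ ^ 2 < ∑ j ∈ S, qf (TT Q hQ) (volume.restrict (uc j)) v := by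
  unfold Hd at h
  push Not at h
  obtain ⟨f, hf, hlt⟩ := h
  refine ⟨hf.toLp f, ?_⟩
  have h1 : ∫⁻ x in un S, ‖Ex (Q.indicator f) x‖ₑ ^ 2 =
      ENNReal.ofReal (∑ j ∈ S, qf (TT Q hQ) (volume.restrict (uc j)) (hf.toLp f)) := by
    rw [sum_qf Q hQ hQm]
    simp_rw [TT_toLp Q hQ hQm _ f hf]
  rw [h1, ← norm_toLp Q f hf, ← ENNReal.ofReal_mul hA] at hlt
  exact (ENNReal.ofReal_lt_ofReal_iff_of_nonneg (by positivity)).1 hlt

/-- **Random sampling for the extension operator.** -/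
theorem randomQ (hQ : volume Q ≠ ∞) (hQm : MeasurableSet Q) (J : Finset (Fin (n + 1) → ℤ))
    (p : (Fin (n + 1) → ℤ) → ℝ) (hp : ∀ j ∈ J, 0 ≤ p j ∧ p j ≤ 1) (M : ℝ) (hM : 0 ≤ M)
    (hJ : ∀ f : EuclideanSpace ℝ (Fin n) → ℂ, MemLp f 2 (mQ Q) →
      ∑ j ∈ J, ENNReal.ofReal (p j) * ∫⁻ x in uc j, ‖Ex (Q.indicator f) x‖ₑ ^ 2 ≤
        ENNReal.ofReal M * eLpNorm f 2 (mQ Q) ^ 2) (τ : ℝ) (hτ : 1 ≤ τ) :
    Pb J p (fun S => ¬ Hd Q (18 * max 1 (volume Q).toReal * (M + τ)) (un S)) ≤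
      (∑ j ∈ J, p j) * Real.exp (-τ) := by
  set β : ℝ := max 1 (volume Q).toReal with hβ
  have hβ1 : 1 ≤ β := le_max_left _ _
  have hμ : ∀ v : Lp ℂ 2 (mQ Q), ∑ j ∈ J, p j * qf (TT Q hQ) (volume.restrict (uc j)) v ≤
      M * ‖v‖ ^ 2 := by
    intro v
    have h1 := hJ v (Lp.memLp v)
    have h2 : ENNReal.ofReal (∑ j ∈ J, p j * qf (TT Q hQ) (volume.restrict (uc j)) v) ≤
        ENNReal.ofReal (M * ‖v‖ ^ 2) := by
      rw [ENNReal.ofReal_sum_of_nonneg (fun j hj => mul_nonneg (hp j hj).1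
        (qf_nn Q hQ j v)), ENNReal.ofReal_mul hM]
      have h3 : ENNReal.ofReal (‖v‖ ^ 2) = eLpNorm v 2 (mQ Q) ^ 2 := by
        rw [Lp.norm_def, ENNReal.ofReal_pow ENNReal.toReal_nonneg,
          ENNReal.ofReal_toReal (Lp.memLp v).2.ne]
      rw [h3]
      refine le_trans (le_of_eq ?_) h1
      refine Finset.sum_congr rfl fun j hj => ?_
      rw [ENNReal.ofReal_mul (hp j hj).1, (qf_eq Q hQ hQm j v).2.1]
      simp_rw [TT_eq Q hQ hQm]
    exact (ENNReal.ofReal_le_ofReal_iff (by positivity)).1 h2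
  have h := tail_exp (TT Q hQ) (fun j => volume.restrict (uc j)) J p β hβ1 hp
    (fun j _ v => (TT_meas Q hQ hQm v).aestronglyMeasurable)
    (fun j _ v => (qf_eq Q hQ hQm j v).1) (fun j _ v => (qf_eq Q hQ hQm j v).2.2) M hM hμ
    (fun j _ D f hf => (qf_bessel Q hQ hQm j D f hf).trans (le_max_right _ _)) τ hτ
  refine le_trans ?_ h
  refine Pb_mono J p hp _ _ fun S _ hS => ?_
  exact not_Hd Q hQ hQm S _ (by positivity) hS

/-- the box -/
noncomputable def bx (n R : ℕ) : Finset (Fin (n + 1) → ℤ) :=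
  Fintype.piFinset fun _ => Finset.Ico (-(R : ℤ)) R

theorem bx_card (n R : ℕ) : (bx n R).card = (2 * R) ^ (n + 1) := by
  unfold bx
  rw [Fintype.card_piFinset]
  simp only [Int.card_Ico, Finset.prod_const, Finset.card_univ, Fintype.card_fin]
  congr 1
  omega

/-- the energy in the box -/
theorem bx_energy (hQ : volume Q ≠ ∞) (hQm : MeasurableSet Q) (R : ℕ) (c : ℝ)
    (f : EuclideanSpace ℝ (Fin n) → ℂ) (hf : MemLp f 2 (mQ Q)) :
    ∑ j ∈ bx n R, ENNReal.ofReal c * ∫⁻ x in uc j, ‖Ex (Q.indicator f) x‖ₑ ^ 2 ≤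
        ENNReal.ofReal (c * (2 * R)) * eLpNorm f 2 (mQ Q) ^ 2 := by
  rcases le_or_gt c 0 with hc | hc
  · rw [ENNReal.ofReal_of_nonpos hc]
    simp
  rw [← Finset.mul_sum, ← un_lint, ENNReal.ofReal_mul hc.le, mul_assoc]
  refine mul_le_mul' le_rfl ?_
  have hm : MeasurableSet (un (bx n R)) := by
    unfold un
    exact Finset.measurableSet_biUnion _ fun j _ => uc_meas j
  have h := energy_slab Q hQ hQm (hf.toLp f) (un (bx n R)) hm (-(R : ℝ)) R (by
    intro x hx
    unfold un at hx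
    rw [mem_iUnion₂] at hx
    obtain ⟨j, hj, hxj⟩ := hx
    unfold bx at hj
    rw [Fintype.mem_piFinset] at hj
    have h1 := Finset.mem_Ico.1 (hj (Fin.last n))
    have h2 := hxj (Fin.last n)
    have a1 : (-(R : ℝ)) ≤ j (Fin.last n) := by exact_mod_cast h1.1
    have a2 : (j (Fin.last n) : ℝ) + 1 ≤ R := by exact_mod_cast h1.2
    exact ⟨by linarith [h2.1], by linarith [h2.2]⟩)
  rw [norm_toLp] at h
  simp_rw [TT_toLp Q hQ hQm _ f hf] at h
  refine h.trans (le_of_eq ?_)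
  congr 2
  ring

/-- the mode of the binomial distribution -/
theorem mode (N k : ℕ) (hk : k ≤ N) (j : ℕ) (hj : j ≤ N) :
    N.choose j * (k ^ j * (N - k) ^ (N - j)) ≤ N.choose k * (k ^ k * (N - k) ^ (N - k)) := by
  set b : ℕ → ℕ := fun j => N.choose j * (k ^ j * (N - k) ^ (N - j)) with hb
  -- the ratio of two consecutive terms
  have hstep : ∀ i, i < N → b (i + 1) * ((i + 1) * (N - k)) = b i * ((N - i) * k) := by
    intro i hi
    have h1 : N.choose (i + 1) * (i + 1) = N.choose i * (N - i) := Nat.choose_succ_right_eq N i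
    have h2 : N - i = (N - (i + 1)) + 1 := by omega
    calc b (i + 1) * ((i + 1) * (N - k))
        = (N.choose (i + 1) * (i + 1)) * (k ^ i * k * ((N - k) ^ (N - (i + 1)) * (N - k))) := by
          simp only [hb]; ring
      _ = (N.choose i * (N - i)) * (k ^ i * k * (N - k) ^ (N - i)) := by
          rw [h1, ← pow_succ (N - k), ← h2]
      _ = b i * ((N - i) * k) := by simp only [hb]; ring
  have hup : ∀ i, i < k → b i ≤ b (i + 1) := by
    intro i hi
    have h1 := hstep i (by omega)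
    have h2 : (i + 1) * (N - k) ≤ (N - i) * k := by
      obtain ⟨c, hc⟩ : ∃ c, k = i + 1 + c := ⟨k - (i + 1), by omega⟩
      obtain ⟨d, hd⟩ : ∃ d, N = k + d := ⟨N - k, by omega⟩
      have e1 : N - k = d := by omega
      have e2 : N - i = 1 + c + d := by omega
      rw [e1, e2, hc]
      nlinarith
    have hpos : 0 < (N - i) * k := Nat.mul_pos (by omega) (by omega)
    by_contra hlt
    push Not at hlt
    have : b (i + 1) * ((i + 1) * (N - k)) < b i * ((N - i) * k) := by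
      calc b (i + 1) * ((i + 1) * (N - k)) ≤ b (i + 1) * ((N - i) * k) := Nat.mul_le_mul_left _ h2
        _ < b i * ((N - i) * k) := Nat.mul_lt_mul_of_pos_right hlt hpos
    omega
  have hdown : ∀ i, k ≤ i → i < N → b (i + 1) ≤ b i := by
    intro i hi hiN
    have h1 := hstep i hiN
    have h2 : (N - i) * k ≤ (i + 1) * (N - k) := by
      obtain ⟨c, hc⟩ : ∃ c, i = k + c := ⟨i - k, by omega⟩
      obtain ⟨d, hd⟩ : ∃ d, N = i + 1 + d := ⟨N - (i + 1), by omega⟩
      have e1 : N - k = c + 1 + d := by omega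
      have e2 : N - i = 1 + d := by omega
      rw [e1, e2, hc]
      nlinarith
    have hpos : 0 < (i + 1) * (N - k) := Nat.mul_pos (by omega) (by omega)
    by_contra hlt
    push Not at hlt
    have : b i * ((N - i) * k) < b (i + 1) * ((i + 1) * (N - k)) := by
      calc b i * ((N - i) * k) ≤ b i * ((i + 1) * (N - k)) := Nat.mul_le_mul_left _ h2
        _ < b (i + 1) * ((i + 1) * (N - k)) := Nat.mul_lt_mul_of_pos_right hlt hpos
    omega
  show b j ≤ b k
  rcases le_total j k with h | h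
  · obtain ⟨d, rfl⟩ : ∃ d, k = j + d := ⟨k - j, by omega⟩
    have : ∀ e, e ≤ d → b j ≤ b (j + e) := by
      intro e
      induction e with
      | zero => intro _; exact le_rfl
      | succ e ih =>
        intro he
        exact (ih (by omega)).trans (hup (j + e) (by omega))
    exact this d le_rfl
  · obtain ⟨d, rfl⟩ : ∃ d, j = k + d := ⟨j - k, by omega⟩
    have : ∀ e, e ≤ d → b (k + e) ≤ b k := by
      intro e
      induction e with
      | zero => intro _; exact le_rfl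
      | succ e ih =>
        intro he
        exact (hdown (k + e) (by omega) (by omega)).trans (ih (by omega))
    exact this d le_rfl

theorem mode_sum (N k : ℕ) (hk : k ≤ N) :
    N ^ N ≤ (N + 1) * (N.choose k * (k ^ k * (N - k) ^ (N - k))) := by
  have h1 : N ^ N = ∑ j ∈ Finset.range (N + 1), N.choose j * (k ^ j * (N - k) ^ (N - j)) := by
    have h := add_pow k (N - k) N
    have e : k + (N - k) = N := by omega
    rw [e] at h
    rw [h]
    refine Finset.sum_congr rfl fun j _ => ?_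
    simp only [Nat.cast_id]
    ring
  calc N ^ N = ∑ j ∈ Finset.range (N + 1), N.choose j * (k ^ j * (N - k) ^ (N - j)) := h1
    _ ≤ ∑ j ∈ Finset.range (N + 1), N.choose k * (k ^ k * (N - k) ^ (N - k)) :=
        Finset.sum_le_sum fun j hj => mode N k hk j (by
          rw [Finset.mem_range] at hj; omega)
    _ = _ := by rw [Finset.sum_const, Finset.card_range, smul_eq_mul]

/-- from independent choices to subsets of fixed cardinality -/
theorem fixed_card {α : Type*} [DecidableEq α] (J : Finset α) (k : ℕ) (hk : k ≤ J.card)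
    (A : Finset α → Prop) [DecidablePred A] :
    (((J.powersetCard k).filter A).card : ℝ) ≤
      ((J.card : ℝ) + 1) * (J.card.choose k : ℝ) * Pb J (fun _ => (k : ℝ) / J.card) A := by
  classical
  set N : ℕ := J.card with hN
  rcases Nat.eq_zero_or_pos N with h0 | hpos
  · have hJ : J = ∅ := Finset.card_eq_zero.1 (hN ▸ h0)
    have hk0 : k = 0 := by omega
    rw [h0, hk0, hJ]
    rw [Pb_eq]
    simp only [Finset.powersetCard_zero, Nat.choose_self]
    unfold ex pr
    by_cases hA : A ∅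
    · simp [Finset.filter_singleton, hA]
    · simp [Finset.filter_singleton, hA]
  have hN0 : (0 : ℝ) < N := by exact_mod_cast hpos
  set q : ℝ := (k : ℝ) / N with hq
  have hq0 : 0 ≤ q := by positivity
  have hq1 : q ≤ 1 := by
    rw [hq, div_le_one hN0]
    exact_mod_cast hk
  have h1q : 1 - q = ((N - k : ℕ) : ℝ) / N := by
    rw [hq, Nat.cast_sub hk]
    field_simp
  -- the weight of a set of cardinality k
  have hw : ∀ S ∈ J.powersetCard k, pr J (fun _ => q) S = q ^ k * (1 - q) ^ (N - k) := by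
    intro S hS
    rw [Finset.mem_powersetCard] at hS
    rw [← pr_eq J _ S hS.1, Finset.prod_const, Finset.prod_const, hS.2,
      Finset.card_sdiff_of_subset hS.1, hS.2]
  have hP : (((J.powersetCard k).filter A).card : ℝ) * (q ^ k * (1 - q) ^ (N - k)) ≤
      Pb J (fun _ => q) A := by
    rw [Pb_eq]
    unfold ex
    have hsub : (J.powersetCard k).filter A ⊆ J.powerset := fun S hS =>
      Finset.mem_powerset.2 (Finset.mem_powersetCard.1 (Finset.mem_filter.1 hS).1).1
    calc (((J.powersetCard k).filter A).card : ℝ) * (q ^ k * (1 - q) ^ (N - k))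
        = ∑ S ∈ (J.powersetCard k).filter A, pr J (fun _ => q) S * (if A S then 1 else 0) := by
          rw [← nsmul_eq_mul, ← Finset.sum_const]
          refine Finset.sum_congr rfl fun S hS => ?_
          rw [Finset.mem_filter] at hS
          rw [if_pos hS.2, mul_one, hw S hS.1]
      _ ≤ _ := by
          refine Finset.sum_le_sum_of_subset_of_nonneg hsub fun S _ _ => ?_
          refine mul_nonneg (pr_nonneg J _ (fun _ _ => ⟨hq0, hq1⟩) S) ?_
          split_ifs <;> norm_num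
  have hm : 1 ≤ ((N : ℝ) + 1) * (N.choose k : ℝ) * (q ^ k * (1 - q) ^ (N - k)) := by
    have h2 : ((N : ℝ)) ^ N ≤ ((N : ℝ) + 1) * ((N.choose k : ℝ) *
        ((k : ℝ) ^ k * ((N - k : ℕ) : ℝ) ^ (N - k))) := by exact_mod_cast mode_sum N k hk
    have h3 : ((N : ℝ) + 1) * (N.choose k : ℝ) * (q ^ k * (1 - q) ^ (N - k)) =
        ((N : ℝ) + 1) * ((N.choose k : ℝ) * ((k : ℝ) ^ k * ((N - k : ℕ) : ℝ) ^ (N - k))) /
          (N : ℝ) ^ N := by
      have h4 : (N : ℝ) ^ N = (N : ℝ) ^ k * (N : ℝ) ^ (N - k) := by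
        rw [← pow_add]
        congr 1
        omega
      rw [h1q, hq, div_pow, div_pow, h4]
      field_simp
    rw [h3, le_div_iff₀ (by positivity), one_mul]
    exact h2
  have hc : (0 : ℝ) ≤ (((J.powersetCard k).filter A).card : ℝ) := Nat.cast_nonneg _
  calc (((J.powersetCard k).filter A).card : ℝ)
      = (((J.powersetCard k).filter A).card : ℝ) * 1 := (mul_one _).symm
    _ ≤ (((J.powersetCard k).filter A).card : ℝ) *
        (((N : ℝ) + 1) * (N.choose k : ℝ) * (q ^ k * (1 - q) ^ (N - k))) :=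
        mul_le_mul_of_nonneg_left hm hc
    _ = ((N : ℝ) + 1) * (N.choose k : ℝ) *
        ((((J.powersetCard k).filter A).card : ℝ) * (q ^ k * (1 - q) ^ (N - k))) := by ring
    _ ≤ _ := mul_le_mul_of_nonneg_left hP (by positivity)

end Pool.Agent.N248.RM
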